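import Pool.Agent.Helper85.FRG.Car
import Pool.Agent.Helper85.FRG.Sec
import Pool.Agent.Helper33.LIT.Frm

/-! LITERAL CARRIERS: every carrier (with its frame) goes to a literal carrier (with the same frame), `R` arbitrary. -/

set_option autoImplicit false

namespace Pool.Agent.Helper85.FRG

open Finset Filter Topology Matrix Pool.Agent.Helper69.RK Pool.Agent.Helper31.EC Pool.Agent.Helper31.EC.Sp
open Pool.Agent.Helper40.EL Pool.Agent.Helper89.LX Pool.Agent.Helper3.LF Pool.Agent.Helper84.MT Pool.Agent.Helper36.AM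
open Pool.Agent.Helper33.LIT Pool.Agent.Helper49.KL Pool.Agent.Helper85.FRM
open Pool.Agent.Helper52.GF (scw)
open Pool.Agent.Helper89.RAK (KC)
open Pool.Agent.Helper87.NSL (KnS)

noncomputable section

/-- forms on a fixed label -/
structure FF {F : FSp} (l : FLab F) (ι : Type) [Fintype ι] [DecidableEq ι] where
  g : l.T.Ω → Matrix ι ι ℝ
  g' : l.T.Ω → Matrix ι ι ℝ
  meas : ∀ ω ω', l.T.μ ω ≠ 0 → l.T.μ ω' ≠ 0 → l.V ω ω' → l.T.Z ω ω' → g ω = g ω' ∧ g' ω = g' ω'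

/-- the form with its label -/
def FF.fd {F : FSp} {l : FLab F} {ι : Type} [Fintype ι] [DecidableEq ι] (y : FF l ι) : FD F ι := ⟨l, y.g, y.g', y.meas⟩

variable {S : Sp}

theorem exists_ff {ι : Type} [Fintype ι] [DecidableEq ι] {l : Lab S} {x : ∀ k, FD (S.F k) ι}
    (hx : ∀ k, (x k).l = l k) : ∃ y : ∀ k, FF (l k) ι, x = fun k => (y k).fd := by
  have : (fun k => (x k).l) = l := funext hx
  subst this
  exact ⟨fun k => ⟨(x k).g, (x k).g', (x k).meas⟩, rfl⟩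

variable {M : ℕ} {E : ℕ → ℕ} {ι : Type} {s : MSys S M E ι} {R : ∀ k, Setoid (S.F k).Ω} {B : Part S} {c : ℝ} {l : Lab S}

/-- LITERAL SECTIONS OF A CARRIER which keep all degrees and countably many null means -/
theorem Car.sec [Finite ι] (h : Car s R B c l) (b : ℕ → ∀ k, (l k).T.Ω → ℝ) (hb0 : ∀ i k τ, 0 ≤ b i k τ)
    (hb : ∀ i, Tendsto (fun k => ∑ τ, (l k).T.μ τ * b i k τ) UF (𝓝 0)) :
    ∃ σ : Sec l, (∀ᶠ k in UF, R k ⊓ (S.F k).Z ≤ σ.Z k) ∧ Car s R B c (Lab.ofZ σ.Z) ∧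
      ∀ i, Tendsto (fun k => ∑ ω, (S.F k).μ ω * b i k (σ.f k ω)) UF (𝓝 0) := by
  classical
  have h1 : ∀ D, ∃ y : ∀ k, FF (l k) (Mon M D), (gaq s.Q D).OptfK (KC R) (scw s B c) fun k => (y k).fd := by
    intro D
    obtain ⟨x, hx, ho⟩ := h D
    obtain ⟨y, rfl⟩ := exists_ff hx
    exact ⟨y, ho⟩
  choose y hy using h1
  have h2 := fun D => exists_scale (gaq s.Q D) (hy D)
  choose e he0 he1 he2 using h2
  obtain ⟨b1, hb10, hb11, hb12⟩ := exists_sum_bad (l := l)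
    (fun D k τ => bfn (gaq s.Q D) (fun k => (y D k).fd) (e D) k τ)
    (fun D k τ => bfn_nonneg (gaq s.Q D) (fun k => (y D k).fd) (e D) k τ) he2
  obtain ⟨b2, hb20, hb21, hb22⟩ := exists_sum_bad (l := l) b hb0 hb
  obtain ⟨σ, h3, h4, h5⟩ := exists_secC (A := scw s B c) h.dm.1 h.dm.2 (fun k τ => b1 k τ + b2 k τ)
    (fun k τ => add_nonneg (hb10 k τ) (hb20 k τ)) (by
      have := hb11.add hb21
      rw [add_zero] at this
      refine this.congr fun k => ?_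
      rw [← Finset.sum_add_distrib]
      exact Finset.sum_congr rfl fun τ _ => by ring)
  have key : ∀ (d : ∀ k, (l k).T.Ω → ℝ), (∀ k τ, 0 ≤ d k τ) → (∀ᶠ k in UF, ∀ τ, d k τ ≤ b1 k τ + b2 k τ) →
      Tendsto (fun k => ∑ ω, (S.F k).μ ω * d k (σ.f k ω)) UF (𝓝 0) := by
    intro d hd0 hd
    refine tendsto_of_tendsto_of_tendsto_of_le_of_le' tendsto_const_nhds h5 ?_ ?_
    · exact Eventually.of_forall fun k => Finset.sum_nonneg fun x _ => mul_nonneg ((S.F k).nn x) (hd0 k _)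
    · filter_upwards [hd] with k hk
      exact Finset.sum_le_sum fun x _ => mul_le_mul_of_nonneg_left (hk _) ((S.F k).nn x)
  refine ⟨σ, h3, fun D => ?_, fun i => key (b i) (hb0 i) ?_⟩
  · refine ⟨litFD (S := S) (x := fun k => (y D k).fd) σ, fun _ => rfl,
      opt_sec (gaq s.Q D) (hy D) (he0 D) (he1 D) σ h3 h4 (key (fun k τ => bfn (gaq s.Q D) (fun k => (y D k).fd) (e D) k τ)
        (fun k τ => bfn_nonneg (gaq s.Q D) (fun k => (y D k).fd) (e D) k τ) ?_)⟩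
    filter_upwards [hb12 D] with k hk τ
    exact (hk τ).trans (le_add_of_nonneg_right (hb20 k τ))
  · filter_upwards [hb22 i] with k hk τ
    exact (hk τ).trans (le_add_of_nonneg_left (hb10 k τ))

/-- EVERY CARRIER WITH A FRAME GOES TO A LITERAL CARRIER with the same exponents -/
theorem Car.lit [Finite ι] (h : Car s R B c l) {La : Fin M → ℝ} (f : Frm s.Q l La) :
    ∃ (Z : ∀ k, Setoid (S.F k).Ω) (_ : Frm s.Q (Lab.ofZ Z) La), (∀ᶠ k in UF, R k ⊓ (S.F k).Z ≤ Z k) ∧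
      Car s R B c (Lab.ofZ Z) := by
  obtain ⟨σ, h1, h2, -⟩ := h.sec (fun _ _ _ => 0) (fun _ _ _ => le_rfl) (fun _ => by simp)
  exact ⟨σ.Z, σ.frm f, h1, h2⟩

/-- carriers can be taken literal -/
theorem exists_car_lit [Finite ι] {B R : ∀ k, Setoid (S.F k).Ω}
    (hB : ∃ K : ℕ → ℝ, S.Sub K ∧ ∀ᶠ k in UF, ∀ ω ω', (S.F k).μ ω ≠ 0 → (S.F k).μ ω' ≠ 0 → (S.F k).Z ω ω' → B k ω ω' →
      ∀ i, |s.Q.v k ω i - s.Q.v k ω' i| ≤ K k * S.dl 1 k) (hR : KnS R s.Q.v) (c : ℝ) :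
    ∃ Z : ∀ k, Setoid (S.F k).Ω, (∀ᶠ k in UF, R k ⊓ (S.F k).Z ≤ Z k) ∧ Car s R (fun k => fc (B k)) c (Lab.ofZ Z) := by
  obtain ⟨l, hl⟩ := exists_car hB hR c
  obtain ⟨σ, h1, h2, -⟩ := hl.sec (fun _ _ _ => 0) (fun _ _ _ => le_rfl) (fun _ => by simp)
  exact ⟨σ.Z, h1, h2⟩

/-- FRTK FOR LITERAL CARRIERS -/
theorem frtc_lit [Finite ι] (s : MSys S M E ι) {B R : ∀ k, Setoid (S.F k).Ω}
    (hB : ∃ K : ℕ → ℝ, S.Sub K ∧ ∀ᶠ k in UF, ∀ ω ω', (S.F k).μ ω ≠ 0 → (S.F k).μ ω' ≠ 0 → (S.F k).Z ω ω' → B k ω ω' →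
      ∀ i, |s.Q.v k ω i - s.Q.v k ω' i| ≤ K k * S.dl 1 k) (hR : KnS R s.Q.v) {w : Fin M → ℝ}
    (hw : ∀ i, 1 ≤ w i) {c : ℝ} (hc : 0 < c) (hwc : ∀ i, w i * c < 1)
    (hnum : ∀ c' : ℝ, 0 < c' → c' ≤ c → ∀ j : Fin M, ∀ l : Lab S, Car s R (fun k => fc (B k)) c' l →
      Tendsto (fun k => h ((l k).p.map (pre s.Q j.val k)) (l k).v / (S.F k).n) UF
        (𝓝 (∑ i : Fin M, if i < j then 1 - w i * c' else 0)))
    (hrow : ∀ c' : ℝ, 0 < c' → c' ≤ c → ∀ j : Fin M, (Dat.car hB hR).RowG c' j (w j * c')) :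
    ∃ (Z : ∀ k, Setoid (S.F k).Ω) (_ : Frm s.Q (Lab.ofZ Z) fun j => w j * c), (∀ᶠ k in UF, R k ⊓ (S.F k).Z ≤ Z k) ∧
      Car s R (fun k => fc (B k)) c (Lab.ofZ Z) := by
  obtain ⟨l, f, hl⟩ := frtc s hB hR hw hc hwc hnum hrow
  exact hl.lit f

/-- FRTK for the literal carriers of a pair `(s, R)`, `R` deep -/
theorem frtd_lit [Finite ι] (s : MSys S M E ι) {R : ∀ k, Setoid (S.F k).Ω} (hR : KnS R s.Q.v) {w : Fin M → ℝ}
    (hw : ∀ i, 1 ≤ w i) {c : ℝ} (hc : 0 < c) (hwc : ∀ i, w i * c < 1)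
    (hnum : ∀ c' : ℝ, 0 < c' → c' ≤ c → ∀ j : Fin M, ∀ l : Lab S, Car s R (fun k => fc (R k)) c' l →
      Tendsto (fun k => h ((l k).p.map (pre s.Q j.val k)) (l k).v / (S.F k).n) UF
        (𝓝 (∑ i : Fin M, if i < j then 1 - w i * c' else 0)))
    (hrow : ∀ c' : ℝ, 0 < c' → c' ≤ c → ∀ j : Fin M, RowD s R c' j (w j * c')) :
    ∃ (Z : ∀ k, Setoid (S.F k).Ω) (_ : Frm s.Q (Lab.ofZ Z) fun j => w j * c), (∀ᶠ k in UF, R k ⊓ (S.F k).Z ≤ Z k) ∧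
      Car s R (fun k => fc (R k)) c (Lab.ofZ Z) := by
  obtain ⟨l, f, hl⟩ := frtd s hR hw hc hwc hnum hrow
  exact hl.lit f

end

end Pool.Agent.Helper85.FRG
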