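import Pool.Agent.Helper85.FRG.Frt

/-! FRTK for CARRIERS: K-labels which carry optimal forms of all degrees (no label of maximal information is needed). -/

set_option autoImplicit false

namespace Pool.Agent.Helper85.FRG

open Finset Filter Topology Matrix Pool.Agent.Helper69.RK Pool.Agent.Helper31.EC Pool.Agent.Helper31.EC.Sp
open Pool.Agent.Helper40.EL Pool.Agent.Helper89.LX Pool.Agent.Helper3.LF Pool.Agent.Helper84.MT Pool.Agent.Helper36.AM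
open Pool.Agent.Helper85.FRM
open Pool.Agent.Helper52.GF (scw scw_cnd KLb)
open Pool.Agent.Helper89.RAK (KC Lit)
open Pool.Agent.Helper87.NSL (KnS)

noncomputable section

/-! ### joins refine their members -/

/-- the join refines the first label -/
def Rf.left {F : FSp} (l l' : FLab F) : Rf l (l.join l') where
  r := (l.am l').p1
  cm := fun _ _ => rfl
  le := fun _ _ _ _ _ h => h.1

/-- the join refines the second label -/
def Rf.right {F : FSp} (l l' : FLab F) : Rf l' (l.join l') where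
  r := (l.am l').p2
  cm := fun w hw => ((l.am l').supp w hw).1.symm
  le := fun _ _ _ _ _ h => h.2

variable {S : Sp} {M : ℕ} {E : ℕ → ℕ} {ι : Type}

/-! ### countably many qualities -/

/-- a quality: monotone in `η` and kept under refinements -/
structure Qua (S : Sp) where
  q : ℝ → ∀ k, FLab (S.F k) → ℝ → Prop
  qm : ∀ c k (l : FLab (S.F k)) η η', η ≤ η' → q c k l η → q c k l η'
  qr : ∀ c k (l l' : FLab (S.F k)) η, Nonempty (Rf l l') → q c k l η → q c k l' η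

/-- all qualities of a sequence -/
def Qua.all (Q : ℕ → Qua S) : Qua S where
  q := fun c k l η => ∀ i : ℕ, (i : ℝ) * η ≤ 1 → (Q i).q c k l η
  qm := fun c k l η η' h h1 i hi =>
    (Q i).qm c k l η η' h (h1 i ((mul_le_mul_of_nonneg_left h (Nat.cast_nonneg i)).trans hi))
  qr := fun c k l l' η f h i hi => (Q i).qr c k l l' η f (h i hi)

/-- the data with a quality -/
def Dat.mkq (s : MSys S M E ι) {B R : ∀ k, Setoid (S.F k).Ω}
    (hB : ∃ K : ℕ → ℝ, S.Sub K ∧ ∀ᶠ k in UF, ∀ ω ω', (S.F k).μ ω ≠ 0 → (S.F k).μ ω' ≠ 0 → (S.F k).Z ω ω' → B k ω ω' →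
      ∀ i, |s.Q.v k ω i - s.Q.v k ω' i| ≤ K k * S.dl 1 k) (hR : KnS R s.Q.v) (Q : Qua S) : Dat s :=
  Dat.mk0 s B R hB hR Q.q Q.qm Q.qr

section
variable {s : MSys S M E ι} {B R : ∀ k, Setoid (S.F k).Ω}
  (hB : ∃ K : ℕ → ℝ, S.Sub K ∧ ∀ᶠ k in UF, ∀ ω ω', (S.F k).μ ω ≠ 0 → (S.F k).μ ω' ≠ 0 → (S.F k).Z ω ω' → B k ω ω' →
      ∀ i, |s.Q.v k ω i - s.Q.v k ω' i| ≤ K k * S.dl 1 k) (hR : KnS R s.Q.v)

theorem mkq_kl (Q : Qua S) (c : ℝ) (l : Lab S) :
    (Dat.mkq s hB hR Q).Kl c l ↔ l.DMf (scw s (fun k => fc (B k)) c) ∧ (KC R).ev l := Iff.rfl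

theorem mkq_all_is (Q : ℕ → Qua S) (c : ℝ) (l : Lab S) :
    (Dat.mkq s hB hR (Qua.all Q)).Is c l ↔ ∀ i, (Dat.mkq s hB hR (Q i)).Is c l := by
  constructor
  · rintro ⟨h1, h2⟩ i
    refine ⟨h1, fun η hη => ?_⟩
    set η' : ℝ := min η (1 / ((i : ℝ) + 1)) with hη'
    have h0 : 0 < η' := lt_min hη (by positivity)
    filter_upwards [h2 η' h0] with k hk
    refine (Q i).qm c k (l k) η' η (min_le_left _ _) (hk i ?_)
    have h3 : (i : ℝ) * η' ≤ i * (1 / ((i : ℝ) + 1)) :=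
      mul_le_mul_of_nonneg_left (min_le_right _ _) (Nat.cast_nonneg i)
    refine h3.trans ?_
    rw [mul_one_div, div_le_one (by positivity)]
    linarith
  · intro h
    refine ⟨(h 0).1, fun η hη => ?_⟩
    obtain ⟨N, hN⟩ := exists_nat_ge (1 / η)
    have h1 : ∀ᶠ k in UF, ∀ i ∈ Finset.range (N + 1), (Q i).q c k (l k) η := by
      rw [Filter.eventually_all_finset]
      intro i _
      exact (h i).2 η hη
    filter_upwards [h1] with k hk i hi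
    refine hk i (Finset.mem_range.mpr (Nat.lt_succ_of_le ?_))
    have h2 : (i : ℝ) ≤ 1 / η := by
      rw [le_div_iff₀ hη]
      exact hi
    exact_mod_cast h2.trans hN

/-- labels of every single quality give labels of all qualities -/
theorem exists_all [Finite ι] (Q : ℕ → Qua S) (c : ℝ) (h : ∀ i, ∃ l, (Dat.mkq s hB hR (Q i)).Is c l) :
    ∃ l, (Dat.mkq s hB hR (Qua.all Q)).Is c l := by
  choose L hL using h
  have h1 : ∀ N : ℕ, ∃ l : Lab S, (l.DMf (scw s (fun k => fc (B k)) c) ∧ (KC R).ev l) ∧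
      ∀ i, i ≤ N → ∀ η : ℝ, 0 < η → ∀ᶠ k in UF, (Q i).q c k (l k) η := by
    intro N
    induction N with
    | zero =>
      refine ⟨L 0, (hL 0).1, fun i hi η hη => ?_⟩
      have h2 : i = 0 := by omega
      rw [h2]
      exact (hL 0).2 η hη
    | succ N ih =>
      obtain ⟨l, h2, h3⟩ := ih
      refine ⟨l.join (L (N + 1)), ⟨h2.1.join (hL (N + 1)).1.1, LC.ev.join h2.2 (hL (N + 1)).1.2⟩, fun i hi η hη => ?_⟩
      rcases Nat.lt_or_ge N i with h4 | h4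
      · have h5 : i = N + 1 := by omega
        rw [h5]
        filter_upwards [(hL (N + 1)).2 η hη] with k hk
        exact (Q (N + 1)).qr c k _ _ η ⟨Rf.right (l k) (L (N + 1) k)⟩ hk
      · filter_upwards [h3 i h4 η hη] with k hk
        exact (Q i).qr c k _ _ η ⟨Rf.left (l k) (L (N + 1) k)⟩ hk
  apply Dat.diag
  intro u
  obtain ⟨l, h2, h3⟩ := h1 (u + 1)
  refine ⟨l, h2, ?_⟩
  have h4 : ∀ᶠ k in UF, ∀ i ∈ Finset.range (u + 2), (Q i).q c k (l k) (1 / ((u : ℝ) + 1)) := by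
    rw [Filter.eventually_all_finset]
    intro i hi
    exact h3 i (by have := Finset.mem_range.mp hi; omega) _ (by positivity)
  filter_upwards [h4] with k hk
  show ∀ i : ℕ, (i : ℝ) * (1 / ((u : ℝ) + 1)) ≤ 1 → (Q i).q c k (l k) (1 / ((u : ℝ) + 1))
  intro i hi
  refine hk i (Finset.mem_range.mpr ?_)
  rw [mul_one_div, div_le_one (by positivity)] at hi
  have h5 : i ≤ u + 1 := by exact_mod_cast hi
  omega

end

/-! ### forms -/

/-- the label carries a form of the degree `D`, up to `η`, with score at least `o - η` -/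
def Cq (Q : S.VV M) (D : ℕ) (o : ℝ) (k : ℕ) (l : FLab (S.F k)) (η : ℝ) : Prop :=
  ∃ g g' : l.T.Ω → Matrix (Mon M D) (Mon M D) ℝ,
    (∀ ω ω', l.T.μ ω ≠ 0 → l.T.μ ω' ≠ 0 → l.V ω ω' → l.T.Z ω ω' → g ω = g ω' ∧ g' ω = g' ω') ∧
    (∀ ω, l.T.μ ω ≠ 0 → Cpd ((gaq Q D).cp k) (g ω) ∧ Cpd ((gaq Q D).cp k) (g' ω)) ∧
    l.T.pb (fun ω => ¬ (gaq Q D).φ k (l.p.π ω) (g ω) ≤ 2 ^ (η * (S.F k).n)) ≤ η ∧
    l.T.pb (fun ω => ¬ (gaq Q D).φ k (l.p.π ω) (g' ω) ≤ 2 ^ (η * (S.F k).n)) ≤ η ∧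
    o - η ≤ (∑ ω, l.T.μ ω * Real.logb 2 (g ω).det) / (S.F k).n

theorem Cq.mono {Q : S.VV M} {D : ℕ} {o : ℝ} {k : ℕ} {l : FLab (S.F k)} {η η' : ℝ} (h : η ≤ η')
    (hq : Cq Q D o k l η) : Cq Q D o k l η' := by
  obtain ⟨g, g', a, b, c, d, e⟩ := hq
  have hn := (S.F k).pos
  have h2 : (2 : ℝ) ^ (η * (S.F k).n) ≤ 2 ^ (η' * (S.F k).n) :=
    Real.rpow_le_rpow_of_exponent_le (by norm_num) (mul_le_mul_of_nonneg_right h hn.le)
  refine ⟨g, g', a, b, ?_, ?_, by linarith⟩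
  · exact (l.T.pb_mono fun ω _ h3 h4 => h3 (h4.trans h2)).trans (c.trans h)
  · exact (l.T.pb_mono fun ω _ h3 h4 => h3 (h4.trans h2)).trans (d.trans h)

theorem Cq.ref {Q : S.VV M} {D : ℕ} {o : ℝ} {k : ℕ} {l l' : FLab (S.F k)} {η : ℝ} (f : Rf l l')
    (hq : Cq Q D o k l η) : Cq Q D o k l' η := by
  obtain ⟨g, g', a, b, c, d, e⟩ := hq
  have key : ∀ γ : l.T.Ω → Matrix (Mon M D) (Mon M D) ℝ,
      l.T.pb (fun ω => ¬ (gaq Q D).φ k (l.p.π ω) (γ ω) ≤ 2 ^ (η * (S.F k).n)) ≤ η →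
      l'.T.pb (fun ω => ¬ (gaq Q D).φ k (l'.p.π ω) (γ (f.r.π ω)) ≤ 2 ^ (η * (S.F k).n)) ≤ η := by
    intro γ hγ
    refine le_trans ?_ hγ
    rw [← pb_push f.r (fun ω => ¬ (gaq Q D).φ k (l.p.π ω) (γ ω) ≤ 2 ^ (η * (S.F k).n))]
    refine FSp.pb_mono _ fun ω hω h3 => ?_
    rw [f.cm ω hω]
    exact h3
  refine ⟨fun ω => g (f.r.π ω), fun ω => g' (f.r.π ω), fun ω ω' h1 h2 h3 h4 => ?_, fun ω hω => ?_, key g c, key g' d, ?_⟩
  · exact a _ _ (f.r.supp ω h1) (f.r.supp ω' h2) (f.le ω ω' h1 h2 h4 h3) ((f.r.hZ ω ω' h1 h2).mp h4)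
  · exact b _ (f.r.supp ω hω)
  · rw [sum_push f.r (fun ω => Real.logb 2 (g ω).det)]
    exact e

/-- the quality `carries forms with scores at least o D c` -/
def cqua (Q : S.VV M) (o : ℕ → ℝ → ℝ) (D : ℕ) : Qua S where
  q := fun c k l η => Cq Q D (o D c) k l η
  qm := fun _ _ _ _ _ h hq => hq.mono h
  qr := fun _ _ _ _ _ ⟨f⟩ hq => hq.ref f

/-- CARRIERS: labels which carry optimal forms of all degrees -/
def Car (s : MSys S M E ι) (R : ∀ k, Setoid (S.F k).Ω) (B : Part S) (c : ℝ) (l : Lab S) : Prop :=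
  ∀ D : ℕ, ∃ x : ∀ k, FD (S.F k) (Mon M D), (∀ k, (x k).l = l k) ∧ (gaq s.Q D).OptfK (KC R) (scw s B c) x

/-- the optimal score -/
def osc (s : MSys S M E ι) (R : ∀ k, Setoid (S.F k).Ω) (B : Part S) (D : ℕ) (c : ℝ) : ℝ :=
  ul (fun k => (((gaq s.Q D).exists_optfK (KC R) (scw s B c)).choose k).sc / (S.F k).n)

theorem osc_eq {s : MSys S M E ι} {R : ∀ k, Setoid (S.F k).Ω} {B : Part S} {D : ℕ} {c : ℝ}
    {x : ∀ k, FD (S.F k) (Mon M D)} (hx : (gaq s.Q D).OptfK (KC R) (scw s B c) x) :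
    ul (fun k => (x k).sc / (S.F k).n) = osc s R B D c := by
  have h0 := ((gaq s.Q D).exists_optfK (KC R) (scw s B c)).choose_spec
  exact le_antisymm (h0.2 x hx.1) (hx.2 _ h0.1)

section
variable {s : MSys S M E ι} {B R : ∀ k, Setoid (S.F k).Ω}
  (hB : ∃ K : ℕ → ℝ, S.Sub K ∧ ∀ᶠ k in UF, ∀ ω ω', (S.F k).μ ω ≠ 0 → (S.F k).μ ω' ≠ 0 → (S.F k).Z ω ω' → B k ω ω' →
      ∀ i, |s.Q.v k ω i - s.Q.v k ω' i| ≤ K k * S.dl 1 k) (hR : KnS R s.Q.v)

theorem cq_is [Finite ι] (D : ℕ) (c : ℝ) (l : Lab S) :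
    (Dat.mkq s hB hR (cqua s.Q (osc s R fun k => fc (B k)) D)).Is c l ↔
      ∃ x : ∀ k, FD (S.F k) (Mon M D), (∀ k, (x k).l = l k) ∧
        (gaq s.Q D).OptfK (KC R) (scw s (fun k => fc (B k)) c) x := by
  classical
  constructor
  · rintro ⟨h1, h2⟩
    have h3 : ∀ u : ℕ, ∀ᶠ k in UF, Cq s.Q D (osc s R (fun k => fc (B k)) D c) k (l k) (1 / ((u : ℝ) + 1)) :=
      fun u => h2 _ (by positivity)
    obtain ⟨j, hj, hG⟩ := dia (fun u k => Cq s.Q D (osc s R (fun k => fc (B k)) D c) k (l k) (1 / ((u : ℝ) + 1))) h3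
    have h4 : ∀ k, ∃ x : FD (S.F k) (Mon M D), x.l = l k ∧
        (Cq s.Q D (osc s R (fun k => fc (B k)) D c) k (l k) (1 / ((j k : ℝ) + 1)) →
          (∀ ω, x.l.T.μ ω ≠ 0 → Cpd ((gaq s.Q D).cp k) (x.g ω) ∧ Cpd ((gaq s.Q D).cp k) (x.g' ω)) ∧
          x.l.T.pb (fun ω => ¬ (gaq s.Q D).φ k (x.l.p.π ω) (x.g ω) ≤ 2 ^ (1 / ((j k : ℝ) + 1) * (S.F k).n)) ≤
            1 / ((j k : ℝ) + 1) ∧
          x.l.T.pb (fun ω => ¬ (gaq s.Q D).φ k (x.l.p.π ω) (x.g' ω) ≤ 2 ^ (1 / ((j k : ℝ) + 1) * (S.F k).n)) ≤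
            1 / ((j k : ℝ) + 1) ∧
          osc s R (fun k => fc (B k)) D c - 1 / ((j k : ℝ) + 1) ≤ x.sc / (S.F k).n) := by
      intro k
      by_cases hq : Cq s.Q D (osc s R (fun k => fc (B k)) D c) k (l k) (1 / ((j k : ℝ) + 1))
      · obtain ⟨g, g', a, b, c, d, e⟩ := hq
        exact ⟨⟨l k, g, g', a⟩, rfl, fun _ => ⟨b, c, d, e⟩⟩
      · exact ⟨⟨l k, fun _ => 1, fun _ => 1, fun _ _ _ _ _ _ => ⟨rfl, rfl⟩⟩, rfl, fun h => absurd h hq⟩
    choose x hx1 hx2 using h4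
    have h0 : Tendsto (fun k => 1 / ((j k : ℝ) + 1)) UF (𝓝 0) := tendsto_one_div_add_atTop_nhds_zero_nat.comp hj
    have hl : (fun k => (x k).l) = l := funext hx1
    have hA : (gaq s.Q D).AdfK (KC R) (scw s (fun k => fc (B k)) c) x := by
      refine ⟨fun η hη => ?_, ?_⟩
      · have h5 : ∀ᶠ k in UF, ∀ i, (x k).l.leak (scw s (fun k => fc (B k)) c i k) ≤ η * (S.F k).n := by
          rw [Filter.eventually_all]
          intro i
          have h6 : Nul S (fun k => (l k).leak (scw s (fun k => fc (B k)) c i k)) := h1.1 i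
          filter_upwards [nul_ev h6 hη] with k hk
          rw [hx1 k]
          exact hk
        filter_upwards [h5, hG, h0.eventually (gt_mem_nhds hη)] with k a b e
        obtain ⟨c1, c2, c3, -⟩ := hx2 k (b (j k) le_rfl)
        have hn := (S.F k).pos
        have h7 : (2 : ℝ) ^ (1 / ((j k : ℝ) + 1) * (S.F k).n) ≤ 2 ^ (η * (S.F k).n) :=
          Real.rpow_le_rpow_of_exponent_le (by norm_num) (mul_le_mul_of_nonneg_right e.le hn.le)
        exact ⟨a, c1, ((x k).l.T.pb_mono fun ω _ h3 h4 => h3 (h4.trans h7)).trans (c2.trans e.le),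
          ((x k).l.T.pb_mono fun ω _ h3 h4 => h3 (h4.trans h7)).trans (c3.trans e.le)⟩
      · rw [hl]
        exact h1.2
    refine ⟨x, hx1, hA, fun y hy => ?_⟩
    have h8 := ((gaq s.Q D).exists_optfK (KC R) (scw s (fun k => fc (B k)) c)).choose_spec
    refine (h8.2 y hy).trans ?_
    show osc s R (fun k => fc (B k)) D c ≤ _
    have h9 : Tendsto (fun k => osc s R (fun k => fc (B k)) D c - 1 / ((j k : ℝ) + 1)) UF
        (𝓝 (osc s R (fun k => fc (B k)) D c)) := by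
      have := h0.const_sub (osc s R (fun k => fc (B k)) D c)
      rwa [sub_zero] at this
    refine le_of_tendsto_of_tendsto h9 (ul_tendsto ((gaq s.Q D).sc_UBf hA.1)) ?_
    filter_upwards [hG] with k b
    exact (hx2 k (b (j k) le_rfl)).2.2.2
  · rintro ⟨x, hx, ho⟩
    have hl : (fun k => (x k).l) = l := funext hx
    subst hl
    refine ⟨⟨Gau.AdfK.dm _ ho.1, ho.1.2⟩, fun η hη => ?_⟩
    have h1 := ul_tendsto ((gaq s.Q D).sc_UBf ho.1.1)
    rw [osc_eq ho] at h1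
    filter_upwards [ho.1.1 η hη, h1.eventually (lt_mem_nhds (show osc s R (fun k => fc (B k)) D c - η <
      osc s R (fun k => fc (B k)) D c by linarith))] with k a b
    exact ⟨(x k).g, (x k).g', (x k).meas, a.2.1, a.2.2.1, a.2.2.2, b.le⟩

/-- the data of the carriers -/
def Dat.car : Dat s := Dat.mkq s hB hR (Qua.all (cqua s.Q (osc s R fun k => fc (B k))))

theorem Dat.car_is [Finite ι] (c : ℝ) (l : Lab S) : (Dat.car hB hR).Is c l ↔ Car s R (fun k => fc (B k)) c l := by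
  unfold Dat.car
  rw [mkq_all_is]
  exact forall_congr' fun D => cq_is hB hR D c l

include hB hR in
/-- CARRIERS EXIST -/
theorem exists_car [Finite ι] (c : ℝ) : ∃ l, Car s R (fun k => fc (B k)) c l := by
  obtain ⟨l, hl⟩ := exists_all hB hR (cqua s.Q (osc s R fun k => fc (B k))) c fun D => by
    obtain ⟨x, hx⟩ := (gaq s.Q D).exists_optfK (KC R) (scw s (fun k => fc (B k)) c)
    exact ⟨fun k => (x k).l, (cq_is hB hR D c _).mpr ⟨x, fun _ => rfl, hx⟩⟩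
  exact ⟨l, (Dat.car_is hB hR c l).mp hl⟩

end

/-- carriers are K-labels -/
theorem Car.dm {s : MSys S M E ι} {R : ∀ k, Setoid (S.F k).Ω} {B : Part S} {c : ℝ} {l : Lab S} (h : Car s R B c l) :
    l.DMf (scw s B c) ∧ (KC R).ev l := by
  obtain ⟨x, hx, ho⟩ := h 0
  have hl : (fun k => (x k).l) = l := funext hx
  subst hl
  exact ⟨Gau.AdfK.dm _ ho.1, ho.1.2⟩

theorem scw_cndR (s : MSys S M E ι) (R : ∀ k, Setoid (S.F k).Ω) (c : ℝ) :
    scw s (fun k => fc (R k)) c = Pool.Agent.Helper87.NSL.cndR s R c :=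
  funext fun i => by cases i <;> rfl

/-- carriers of a pair are K-labels -/
theorem Car.dmR {s : MSys S M E ι} {R : ∀ k, Setoid (S.F k).Ω} {c : ℝ} {l : Lab S}
    (h : Car s R (fun k => fc (R k)) c l) :
    l.DMf (Pool.Agent.Helper87.NSL.cndR s R c) ∧ (LC.kz fun k => fc (R k)).ev l := by
  rw [← scw_cndR]
  exact h.dm

/-- the join of a carrier and a K-label is a carrier -/
theorem Car.jn [Finite ι] {s : MSys S M E ι} {R : ∀ k, Setoid (S.F k).Ω} {B : Part S} {c : ℝ} {l l' : Lab S}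
    (h : Car s R B c l) (hl' : l'.DMf (scw s B c)) (hC : (KC R).ev l') : Car s R B c (l.join l') := by
  intro D
  obtain ⟨x, hx, ho⟩ := h D
  have hl : (fun k => (x k).l) = l := funext hx
  subst hl
  exact ⟨fun k => (x k).jn (l' k), fun _ => rfl, Gau.OptfK.jn _ ho hl' hC⟩

/-- FRTK FOR CARRIERS: `B` and `R` as in `Dat` -/
theorem frtc [Finite ι] (s : MSys S M E ι) {B R : ∀ k, Setoid (S.F k).Ω}
    (hB : ∃ K : ℕ → ℝ, S.Sub K ∧ ∀ᶠ k in UF, ∀ ω ω', (S.F k).μ ω ≠ 0 → (S.F k).μ ω' ≠ 0 → (S.F k).Z ω ω' → B k ω ω' →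
      ∀ i, |s.Q.v k ω i - s.Q.v k ω' i| ≤ K k * S.dl 1 k) (hR : KnS R s.Q.v) {w : Fin M → ℝ}
    (hw : ∀ i, 1 ≤ w i) {c : ℝ} (hc : 0 < c) (hwc : ∀ i, w i * c < 1)
    (hnum : ∀ c' : ℝ, 0 < c' → c' ≤ c → ∀ j : Fin M, ∀ l : Lab S, Car s R (fun k => fc (B k)) c' l →
      Tendsto (fun k => h ((l k).p.map (pre s.Q j.val k)) (l k).v / (S.F k).n) UF
        (𝓝 (∑ i : Fin M, if i < j then 1 - w i * c' else 0)))
    (hrow : ∀ c' : ℝ, 0 < c' → c' ≤ c → ∀ j : Fin M, (Dat.car hB hR).RowG c' j (w j * c')) :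
    ∃ (l : Lab S) (_ : Frm s.Q l fun j => w j * c), Car s R (fun k => fc (B k)) c l := by
  obtain ⟨l, f, hl⟩ := frtg (Dat.car hB hR) hw hc hwc
    (fun c' _ _ => by
      obtain ⟨l, hl⟩ := exists_car hB hR c'
      exact ⟨l, (Dat.car_is hB hR c' l).mpr hl⟩)
    (fun c' h0 h1 j l hl => hnum c' h0 h1 j l ((Dat.car_is hB hR c' l).mp hl)) hrow
  exact ⟨l, f, (Dat.car_is hB hR c l).mp hl⟩

/-- ROW_j of the K-labels of the pair `(s, R)`: no leak at all at `R`, small leaks at the windows `c` -/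
def RowD (s : MSys S M E ι) (R : ∀ k, Setoid (S.F k).Ω) (c : ℝ) (j : Fin M) (θ : ℝ) : Prop :=
  ∃ (Dg : ℕ) (l : Lab S) (p : ∀ k, (l.sp.F k).Ω → MvPolynomial (Fin M) ℝ),
    l.DMf (scw s (fun k => fc (R k)) c) ∧ (KC R).ev l ∧
    (∀ k ω, (p k ω).totalDegree ≤ Dg) ∧ (∀ k ω, ∀ a ∈ (p k ω).vars, a ≤ j) ∧ Knw l.sp l.V p ∧
    ∃ K : ℕ → ℝ, S.Sub K ∧ Sp.Typ (S := l.sp) fun k ω =>
      |MvPolynomial.eval ((l.pj.vv s.Q).v k ω) (p k ω)| ≤ K k ∧
      2 ^ (θ * (S.F k).n) ≤ K k * |MvPolynomial.eval ((l.pj.vv s.Q).v k ω) (MvPolynomial.pderiv j (p k ω))|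

/-- FRTK for the carriers of a pair `(s, R)`, `R` deep -/
theorem frtd [Finite ι] (s : MSys S M E ι) {R : ∀ k, Setoid (S.F k).Ω} (hR : KnS R s.Q.v) {w : Fin M → ℝ}
    (hw : ∀ i, 1 ≤ w i) {c : ℝ} (hc : 0 < c) (hwc : ∀ i, w i * c < 1)
    (hnum : ∀ c' : ℝ, 0 < c' → c' ≤ c → ∀ j : Fin M, ∀ l : Lab S, Car s R (fun k => fc (R k)) c' l →
      Tendsto (fun k => h ((l k).p.map (pre s.Q j.val k)) (l k).v / (S.F k).n) UF
        (𝓝 (∑ i : Fin M, if i < j then 1 - w i * c' else 0)))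
    (hrow : ∀ c' : ℝ, 0 < c' → c' ≤ c → ∀ j : Fin M, RowD s R c' j (w j * c')) :
    ∃ (l : Lab S) (_ : Frm s.Q l fun j => w j * c), Car s R (fun k => fc (R k)) c l := by
  refine frtc s (lit_bd hR) hR hw hc hwc hnum fun c' h0 h1 j => ?_
  obtain ⟨Dg, l, p, a, b, e⟩ := hrow c' h0 h1 j
  exact ⟨Dg, l, p, ⟨a, b⟩, e⟩

end

end Pool.Agent.Helper85.FRG
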