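import Pool.Agent.Helper85.FRG.Twr
import Pool.Agent.Helper7.FIN.Finp

/-! FRTK: from an exact tower with one window and all layers to the frame of a K-label. -/

set_option autoImplicit false

namespace Pool.Agent.Helper85.FRG

open Finset Filter Topology Pool.Agent.Helper69.RK Pool.Agent.Helper31.EC Pool.Agent.Helper31.EC.Sp
open Pool.Agent.Helper40.EL Pool.Agent.Helper89.LX Pool.Agent.Helper3.LF Pool.Agent.Helper84.MT
open Pool.Agent.Helper36.AM (Frm)
open Pool.Agent.Helper85.FRM (TwF Fr Sta Sta.congr V_anti co co_eq N maj coeff_le_maj maj_nonneg wd FAMP pre tame_of_eta)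
open Pool.Agent.Helper7.FIN

noncomputable section

variable {S : Sp} {M : ℕ} {E : ℕ → ℕ} {ι : Type}

section frm
variable {Q : S.VV M} {w : Fin M → ℝ} {c : ℝ} {t : ∀ k, TwF (S.F k) M}
  (h : ∀ η : ℝ, 0 < η → ∀ᶠ k in UF, Cor (Q.v k) w (fun i => i * c) 1 M η (t k))
include h

theorem typ0 : Sp.Typ (S := (L0 t).sp) (gd w t) := by
  unfold Sp.Typ
  rw [Metric.tendsto_nhds]
  intro ε hε
  filter_upwards [h (ε / 2) (by linarith)] with k hk
  have h1 : (t k).T.pb (fun ω => ¬ (t k).A ω) ≤ ε / 2 := hk.typ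
  have h2 : (t k).T.pb (fun ω => ¬ gd w t k ω) ≤ (t k).T.pb (fun ω => ¬ (t k).A ω) :=
    FSp.pb_mono (F := (t k).T) fun ω _ a b => a ⟨b, hk.fr 1 ω⟩
  have h3 : 0 ≤ (t k).T.pb (fun ω => ¬ gd w t k ω) := FSp.pb_nonneg _ _
  have h4 : mass (res ((L0 t).sp.F k).μ (fun ω => ¬ gd w t k ω)) = (t k).T.pb (fun ω => ¬ gd w t k ω) := rfl
  rw [Real.dist_eq, sub_zero, h4, abs_of_nonneg h3]
  linarith

theorem nulW (B : ∀ k, FL ((L0 t) k).T) :
    Nul S (fun k => Pool.Agent.Helper31.EC.h (fc (Wp Q w t k) : FL ((L0 t) k).T) (B k)) := by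
  obtain ⟨f, hf, hf1⟩ := ul_rt_cell_le (Yv Q w t) 1 0 le_rfl (fun _ => ⊤) (gd w t) (typ0 h) (fun _ => 0)
    (Sub_const _ le_rfl) (Eventually.of_forall fun k ω ω' _ _ hg hg' _ i => by
      rw [Yv_pos Q w t hg, Yv_pos Q w t hg', Pi.zero_apply, sub_zero, abs_zero, zero_mul])
  rw [mul_zero] at hf
  refine tendsto_of_tendsto_of_tendsto_of_le_of_le' tendsto_const_nhds hf ?_ ?_
  · exact Eventually.of_forall fun k => div_nonneg (h_nonneg _ _) (S.F k).pos.le
  · filter_upwards [hf1] with k hk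
    refine le_trans ?_ hk
    have h1 : Pool.Agent.Helper31.EC.h (fc (Wp Q w t k) : FL ((L0 t) k).T) (B k) ≤
        (t k).T.e (Wp Q w t k) (⊤ ⊓ (t k).T.Z) := (h_anti (by exact bot_le)).trans
      (le_of_eq (h_fc (F := (t k).T) (Wp Q w t k) ⊤))
    have h2 : (L0 t).sp.rt (fun k => Setoid.ker ((Yv Q w t).cellv 1 k)) (fun _ => ⊤) k =
      (t k).T.e (Wp Q w t k) (⊤ ⊓ (t k).T.Z) / (t k).T.n := rfl
    rw [h2, (t k).hn]
    exact div_le_div_of_nonneg_right h1 (S.F k).pos.le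

theorem sta {η : ℝ} (hη : 0 < η) : ∀ᶠ k in UF, ∀ ω : (t k).T.Ω, (t k).T.μ ω ≠ 0 → (t k).A ω → ∀ l : Fin M,
    N (2 ^ (S.F k).n) w c ((t k).P 1 ω l) ≤ 2 ^ (η * (S.F k).n) ∧
      |co (2 ^ (S.F k).n) w c ((t k).P 1 ω) (Q.v k ((t k).p.π ω)) l| ≤ 2 ^ (η * (S.F k).n) := by
  filter_upwards [h η hη] with k hk ω hω hA l
  have h1 := hk.sta ω hω hA
  have h2 := h1.pn 1 le_rfl l l.isLt
  have h3 := h1.yn 1 le_rfl l l.isLt
  have e : ((1 : ℕ) : ℝ) * c = c := by rw [Nat.cast_one, one_mul]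
  simp only [e] at h2 h3
  exact ⟨h2, h3⟩

/-- the coordinates are tame -/
def XX : ((L0 t).addW (Wp Q w t)).sp.VV M where
  v := Xv Q w c t
  bd := by
    obtain ⟨K, hK, hb⟩ := exists_sub (S := (L0 t).sp) (fun k ω => ∑ j, |xv Q w c t k ω j|)
      (gd w t) (fun η hη => by
        filter_upwards [sta h (η := η / 2) (by linarith), ((L0 t).sp.Sub_const (Nat.cast_nonneg M)).eventually_le
          (show 0 < η / 2 by linarith)] with k h1 h2 ω hω hg
        have e0 : ((L0 t).sp.F k).n = (S.F k).n := (t k).hn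
        rw [e0] at h2
        have h3 : ∑ j, |xv Q w c t k ω j| ≤ ∑ _j : Fin M, (2 : ℝ) ^ (η / 2 * (S.F k).n) :=
          Finset.sum_le_sum fun j _ => (h1 ω hω hg.1 j).2
        rw [Finset.sum_const, Finset.card_univ, Fintype.card_fin, nsmul_eq_mul] at h3
        refine h3.trans ?_
        have h4 : (2 : ℝ) ^ (η * (S.F k).n) = 2 ^ (η / 2 * (S.F k).n) * 2 ^ (η / 2 * (S.F k).n) := by
          rw [← Real.rpow_add (by norm_num)]
          congr 1
          ring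
        have e1 : (2 : ℝ) ^ (η * ((L0 t).sp.F k).n) = 2 ^ (η * (S.F k).n) := by rw [e0]
        refine le_of_le_of_eq ?_ e1.symm
        rw [h4]
        exact mul_le_mul_of_nonneg_right (by linarith) (by positivity))
    refine ⟨K, hK, Eventually.of_forall fun k ω hω j => ?_⟩
    by_cases hg : gd w t k ω
    · have h1 := (hb k).2 ω hω hg
      have h2 : |xv Q w c t k ω j| ≤ ∑ j, |xv Q w c t k ω j| :=
        Finset.single_le_sum (f := fun j => |xv Q w c t k ω j|) (fun _ _ => abs_nonneg _) (Finset.mem_univ j)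
      rw [Xv_pos Q w c t hg]
      exact h2.trans h1
    · rw [Xv_neg Q w c t hg, abs_zero]
      exact (hb k).1

theorem coef_bd : ∃ K : ℕ → ℝ, S.Sub K ∧ ∀ᶠ k in UF, ∀ ω, ((L0 t).sp.F k).μ ω ≠ 0 → ∀ j a,
    |(Pv Q w c t k ω j).coeff a| ≤ K k := by
  obtain ⟨K, hK, hb⟩ := exists_sub (S := (L0 t).sp) (fun k ω => ∑ j, N (2 ^ (S.F k).n) w c ((t k).P 1 ω j))
    (gd w t) (fun η hη => by
      filter_upwards [sta h (η := η / 2) (by linarith), ((L0 t).sp.Sub_const (Nat.cast_nonneg M)).eventually_le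
        (show 0 < η / 2 by linarith)] with k h1 h2 ω hω hg
      have e0 : ((L0 t).sp.F k).n = (S.F k).n := (t k).hn
      rw [e0] at h2
      have h3 : ∑ j, N (2 ^ (S.F k).n) w c ((t k).P 1 ω j) ≤ ∑ _j : Fin M, (2 : ℝ) ^ (η / 2 * (S.F k).n) :=
        Finset.sum_le_sum fun j _ => (h1 ω hω hg.1 j).1
      rw [Finset.sum_const, Finset.card_univ, Fintype.card_fin, nsmul_eq_mul] at h3
      refine h3.trans ?_
      have h4 : (2 : ℝ) ^ (η * (S.F k).n) = 2 ^ (η / 2 * (S.F k).n) * 2 ^ (η / 2 * (S.F k).n) := by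
        rw [← Real.rpow_add (by norm_num)]
        congr 1
        ring
      have e1 : (2 : ℝ) ^ (η * ((L0 t).sp.F k).n) = 2 ^ (η * (S.F k).n) := by rw [e0]
      refine le_of_le_of_eq ?_ e1.symm
      rw [h4]
      exact mul_le_mul_of_nonneg_right (by linarith) (by positivity))
  obtain ⟨L, hL, hl⟩ := ((L0 t).pj.vv Q).bd
  refine ⟨fun k => K k + (L k + 1), ((sp_Sub _).1 hK).add (((sp_Sub _).1 hL).add (S.Sub_const zero_le_one)), ?_⟩
  filter_upwards [hl, hL.1] with k h1 h2 ω hω j a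
  have hK0 := (hb k).1
  by_cases hg : gd w t k ω
  · rw [Pv_pos Q w c t hg, coeff_usc, abs_mul]
    have hq := two_pow_le (S := S) k
    have hr : ∀ i, 0 ≤ (2 ^ (S.F k).n : ℝ) ^ (c * w i) := fun i => Real.rpow_nonneg (by linarith) _
    have h3 := coeff_le_maj hr ((t k).P 1 ω j) a
    have h4 := (hb k).2 ω hω hg
    have h5 : N (2 ^ (S.F k).n) w c ((t k).P 1 ω j) ≤ ∑ j, N (2 ^ (S.F k).n) w c ((t k).P 1 ω j) :=
      Finset.single_le_sum (f := fun j => N (2 ^ (S.F k).n) w c ((t k).P 1 ω j)) (fun _ _ => maj_nonneg hr _)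
        (Finset.mem_univ j)
    rw [abs_of_nonneg (Finset.prod_nonneg fun i _ => pow_nonneg (hr i) _)]
    have h6 : maj (fun i => (2 ^ (S.F k).n) ^ (c * w i)) ((t k).P 1 ω j) = N (2 ^ (S.F k).n) w c ((t k).P 1 ω j) :=
      rfl
    rw [h6] at h3
    linarith
  · classical
    rw [Pv_neg Q w c t hg, MvPolynomial.coeff_C]
    have h3 := h1 ω hω j
    have h4 := abs_fl (S := S) k (((L0 t).pj.vv Q).v k ω j)
    have h5 : S.dl 1 k ≤ 1 := by
      have := S.dl_anti (show (0 : ℝ) ≤ 1 by norm_num) k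
      rwa [dl_zero] at this
    by_cases ha : 0 = a
    · rw [if_pos ha]
      rw [abs_le] at h3 h4 ⊢
      constructor <;> linarith
    · rw [if_neg ha, abs_zero]
      linarith

/-- THE FRAME -/
def frm (hc : 0 < c) : Frm Q ((L0 t).addW (Wp Q w t)) (fun j => w j * c) where
  X := XX h
  P := Pv Q w c t
  tri := by
    intro k ω j i hi
    change i ∈ (Pv Q w c t k ω j).vars at hi
    by_cases hg : gd w t k ω
    · rw [Pv_pos Q w c t hg] at hi
      exact hg.2.vars j j.isLt i (usc_vars _ _ hi)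
    · rw [Pv_neg Q w c t hg, MvPolynomial.vars_C] at hi
      exact absurd hi (Finset.notMem_empty _)
  red := by
    intro k ω j a ha ha0
    change a ∈ (Pv Q w c t k ω j).support at ha
    by_cases hg : gd w t k ω
    · rw [Pv_pos Q w c t hg] at ha
      have h1 := hg.2.wd j j.isLt a (usc_support _ _ ha)
      unfold wd at h1
      have h2 : ∑ i, (a i : ℝ) * (w i * c) = (∑ i, (a i : ℝ) * w i) * c := by
        rw [Finset.sum_mul]
        exact Finset.sum_congr rfl fun i _ => by ring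
      rw [h2]
      exact mul_lt_mul_of_pos_right h1 hc
    · classical
      rw [Pv_neg Q w c t hg, MvPolynomial.mem_support_iff, MvPolynomial.coeff_C, if_neg (Ne.symm ha0)] at ha
      exact absurd rfl ha
  fn := by
    filter_upwards [h 1 one_pos] with k hk ω ω' h1 h2 h3 h4
    have h5 : (t k).V 1 ω ω' := h4.1
    have h6 : Wp Q w t k ω ω' := h4.2
    funext j
    by_cases hg : gd w t k ω
    · rw [Pv_pos Q w c t hg, Pv_pos Q w c t (Wp_gd Q w t h6 hg), hk.meas 1 le_rfl ω ω' h1 h2 h3 h5]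
    · have hg' : ¬ gd w t k ω' := fun h => hg (Wp_gd Q w t (Setoid.symm' _ h6) h)
      rw [Pv_neg Q w c t hg, Pv_neg Q w c t hg', Wp_cell Q w t h6 hg]
  bd := coef_bd h
  pt := by
    refine ⟨fun _ => 1, S.Sub_const zero_le_one, Eventually.of_forall fun k ω hω j => ?_⟩
    change |((L0 t).pj.vv Q).v k ω j - (MvPolynomial.eval (fun i => S.dl (w i * c) k * Xv Q w c t k ω i)
      (Pv Q w c t k ω j) + S.dl (w j * c) k * Xv Q w c t k ω j)| ≤ 1 * S.dl 1 k
    by_cases hg : gd w t k ω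
    · rw [Pv_pos Q w c t hg, eval_usc]
      have h1 : (fun i => (2 ^ (S.F k).n : ℝ) ^ (c * w i) * (S.dl (w i * c) k * Xv Q w c t k ω i)) =
          co (2 ^ (S.F k).n) w c ((t k).P 1 ω) (((L0 t).pj.vv Q).v k ω) := by
        funext i
        rw [Xv_pos Q w c t hg, ← mul_assoc, mul_comm c, q_dl, one_mul]
        rfl
      have h2 := co_eq c (q := 2 ^ (S.F k).n) (w := w) (((L0 t).pj.vv Q).v k ω)
        (hg.2.vars j j.isLt)
      have h3 : S.dl (w j * c) k * Xv Q w c t k ω j = ((L0 t).pj.vv Q).v k ω j - MvPolynomial.eval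
          (co (2 ^ (S.F k).n) w c ((t k).P 1 ω) (((L0 t).pj.vv Q).v k ω)) ((t k).P 1 ω j) := by
        rw [Xv_pos Q w c t hg]
        unfold xv
        rw [h2, ← mul_assoc, mul_comm (S.dl (w j * c) k), q_dl, one_mul]
      rw [h1, h3]
      have h4 : ∀ a b : ℝ, |a - (b + (a - b))| = 0 := fun a b => by
        have : a - (b + (a - b)) = 0 := by ring
        rw [this, abs_zero]
      rw [h4, one_mul]
      exact (S.dl_pos 1 k).le
    · rw [Pv_neg Q w c t hg, MvPolynomial.eval_C, Xv_neg Q w c t hg, mul_zero, add_zero, one_mul]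
      exact abs_fl k _

end frm

/-- the tower with the literal good event -/
def ltw (Q : S.VV M) (w : Fin M → ℝ) (c : ℝ) (K : ℕ → ℝ) (t : ∀ k, TwF (S.F k) M) (k : ℕ) : TwF (S.F k) M where
  T := (t k).T
  p := (t k).p
  hn := (t k).hn
  V := (t k).V
  P := (t k).P
  A := fun ω => Sta (2 ^ (S.F k).n) w (fun i => i * c) 1 M (K k) (fun i => (t k).P i ω) (Q.v k ((t k).p.π ω))

theorem ltw_ok {s : MSys S M E ι} {D : Dat s} {w : Fin M → ℝ} {c : ℝ} {t : ∀ k, TwF (S.F k) M}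
    (ht : OkT D w (fun i => i * c) 1 M t) :
    ∃ K : ℕ → ℝ, OkT D w (fun i => i * c) 1 M (ltw s.Q w c K t) := by
  obtain ⟨K, hK, hK1, hS⟩ := ht.tame
  refine ⟨K, fun η hη => ?_⟩
  filter_upwards [ht η hη, hS, hK.eventually_le hη] with k hk h1 h2
  refine ⟨hk.leak, hk.ex, hk.qq, ⟨hk.cor.anti, hk.cor.fr, hk.cor.zero, hk.cor.meas, ?_, fun ω hω hA => ?_⟩⟩
  · refine le_trans (FSp.pb_mono _ ?_) hk.cor.typ
    intro ω hω hA hA'
    exact hA (h1 ω hω hA')
  · have h3 : Sta (2 ^ (S.F k).n) w (fun i => i * c) 1 M (K k) (fun i => (t k).P i ω) (s.Q.v k ((t k).p.π ω)) := hA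
    exact h3.mono (by linarith)

theorem gd_lit {Q : S.VV M} {w : Fin M → ℝ} {c : ℝ} {K : ℕ → ℝ} {t : ∀ k, TwF (S.F k) M} {k : ℕ} {ω ω' : (t k).T.Ω}
    (h0 : (t k).P 0 ω = (t k).P 0 ω') (h1 : (t k).P 1 ω = (t k).P 1 ω')
    (hQ : Q.v k ((t k).p.π ω) = Q.v k ((t k).p.π ω')) (hg : gd w (ltw Q w c K t) k ω) :
    gd w (ltw Q w c K t) k ω' := by
  obtain ⟨a, b⟩ := hg
  have a' : Sta (2 ^ (S.F k).n) w (fun i => i * c) 1 M (K k) (fun i => (t k).P i ω) (Q.v k ((t k).p.π ω)) := a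
  have b' : Fr w M ((t k).P 1 ω) := b
  refine ⟨?_, ?_⟩
  · show Sta (2 ^ (S.F k).n) w (fun i => i * c) 1 M (K k) (fun i => (t k).P i ω') (Q.v k ((t k).p.π ω'))
    rw [← hQ]
    refine a'.congr fun i hi => ?_
    have h2 : i = 0 ∨ i = 1 := by omega
    rcases h2 with h2 | h2
    · rw [h2]
      exact h0
    · rw [h2]
      exact h1
  · show Fr w M ((t k).P 1 ω')
    rw [← h1]
    exact b'

/-- FINK -/
theorem fink {s : MSys S M E ι} {D : Dat s} {w : Fin M → ℝ} {c : ℝ} (hc : 0 < c) {t : ∀ k, TwF (S.F k) M}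
    (ht : OkT D w (fun i => i * c) 1 M t) : ∃ (l : Lab S) (_ : Frm s.Q l fun j => w j * c), D.Is c l := by
  obtain ⟨K, hK⟩ := ltw_ok ht
  have hC : ∀ η : ℝ, 0 < η → ∀ᶠ k in UF, Cor (s.Q.v k) w (fun i => i * c) 1 M η (ltw s.Q w c K t k) := by
    intro η hη
    filter_upwards [hK η hη] with k hk using hk.cor
  have e1 : ((1 : ℕ) : ℝ) * c = c := by rw [Nat.cast_one, one_mul]
  have hDM : (L0 (ltw s.Q w c K t)).DMf (D.cd c) := by
    intro i
    unfold Nul
    rw [Metric.tendsto_nhds]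
    intro ε hε
    filter_upwards [hK (ε / 2) (by linarith)] with k hk
    have hn := (S.F k).pos
    have h1 : ((ltw s.Q w c K t k).lab 1).leak (D.cd (((1 : ℕ) : ℝ) * c) i k) ≤ ε / 2 * (S.F k).n :=
      hk.leak 1 le_rfl le_rfl i
    rw [e1] at h1
    have h2 : 0 ≤ ((ltw s.Q w c K t k).lab 1).leak (D.cd c i k) := FLab.leak_nonneg _ _
    have h3 : (L0 (ltw s.Q w c K t) k).leak (D.cd c i k) = ((ltw s.Q w c K t k).lab 1).leak (D.cd c i k) := rfl
    rw [Real.dist_eq, sub_zero, h3, abs_of_nonneg (div_nonneg h2 hn.le), div_lt_iff₀ hn]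
    nlinarith
  refine ⟨(L0 (ltw s.Q w c K t)).addW (Wp s.Q w (ltw s.Q w c K t)), frm hC hc, ⟨fun i => ?_, ?_⟩, fun η hη => ?_⟩
  · refine ((hDM i).add (nulW hC fun k => (L0 (ltw s.Q w c K t) k).v ⊔ (L0 (ltw s.Q w c K t) k).p.map (D.cd c i k))).of_le
      (Eventually.of_forall fun k => FLab.leak_nonneg _ _) (Eventually.of_forall fun k => ?_)
    exact (L0 (ltw s.Q w c K t) k).addW_leak_le (Wp s.Q w (ltw s.Q w c K t) k) (D.cd c i k)
  · filter_upwards [hK 1 one_pos, D.hR] with k hk hR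
    refine Pool.Agent.Helper89.RAK.addW_kz (L0 (ltw s.Q w c K t) k) _ (D.R k) (hk.ex 1 le_rfl le_rfl) ?_
    intro ω ω' a b v z r
    have hV1 : (t k).V 1 ω ω' := v
    have hV0 : (t k).V 0 ω ω' := hk.cor.anti 0 hV1
    have hP1 : (t k).P 1 ω = (t k).P 1 ω' := hk.cor.meas 1 le_rfl ω ω' a b z hV1
    have hP0 : (t k).P 0 ω = (t k).P 0 ω' := hk.cor.meas 0 (Nat.zero_le 1) ω ω' a b z hV0
    have hQ : s.Q.v k ((t k).p.π ω) = s.Q.v k ((t k).p.π ω') :=
      hR _ _ ((t k).p.supp ω a) ((t k).p.supp ω' b) (((t k).p.hZ ω ω' a b).mp z) r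
    have hY : (Yv s.Q w (ltw s.Q w c K t)).v k ω = (Yv s.Q w (ltw s.Q w c K t)).v k ω' := by
      by_cases hg : gd w (ltw s.Q w c K t) k ω
      · rw [Yv_pos s.Q w _ hg, Yv_pos s.Q w _ (gd_lit hP0 hP1 hQ hg)]
      · have hg' : ¬ gd w (ltw s.Q w c K t) k ω' := fun h => hg (gd_lit hP0.symm hP1.symm hQ.symm h)
        rw [Yv_neg s.Q w _ hg, Yv_neg s.Q w _ hg']
        exact congrArg (Fin.cons 1) hQ
    show (Yv s.Q w (ltw s.Q w c K t)).cellv 1 k ω = (Yv s.Q w (ltw s.Q w c K t)).cellv 1 k ω'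
    unfold Sp.VV.cellv
    rw [hY]
  · filter_upwards [hK η hη] with k hk
    have h1 : D.q (((1 : ℕ) : ℝ) * c) k ((ltw s.Q w c K t k).lab 1) η := hk.qq 1 le_rfl le_rfl
    rw [e1] at h1
    exact D.qr _ _ _ _ _ ⟨Rf.fin (L0 (ltw s.Q w c K t) k) (fun ω ω' h => h.1)⟩ h1

end

end Pool.Agent.Helper85.FRG
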