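import Pool.Agent.Helper85.FRG.Fin
import Pool.Agent.Helper93.FRM.Fam
import Pool.Agent.Helper93.FRM.Lit
import Pool.Agent.Helper87.NSL.Inv

/-! FRTK: FRAMES OF K-LABELS. General form (any partitions `B`, `R`, any quality) and the corollary for the maximal
K-labels of one system. -/

set_option autoImplicit false

namespace Pool.Agent.Helper85.FRG

open Finset Filter Topology Pool.Agent.Helper69.RK Pool.Agent.Helper31.EC Pool.Agent.Helper31.EC.Sp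
open Pool.Agent.Helper40.EL Pool.Agent.Helper89.LX Pool.Agent.Helper3.LF Pool.Agent.Helper84.MT Pool.Agent.Helper36.AM
open Pool.Agent.Helper85.FRM
open Pool.Agent.Helper52.GF (scw scw_cnd)
open Pool.Agent.Helper89.RAK (KC Lit DMK IsKapK)
open Pool.Agent.Helper87.NSL (KnS)

noncomputable section

variable {S : Sp} {M : ℕ} {E : ℕ → ℕ} {ι : Type}

/-- FRTK, general form -/
theorem frtg [Finite ι] {s : MSys S M E ι} (D : Dat s) {w : Fin M → ℝ} (hw : ∀ i, 1 ≤ w i) {c : ℝ} (hc : 0 < c)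
    (hwc : ∀ i, w i * c < 1) (hex : ∀ c' : ℝ, 0 < c' → c' ≤ c → ∃ l, D.Is c' l)
    (hnum : ∀ c' : ℝ, 0 < c' → c' ≤ c → ∀ j : Fin M, ∀ l : Lab S, D.Is c' l →
      Tendsto (fun k => h ((l k).p.map (pre s.Q j.val k)) (l k).v / (S.F k).n) UF
        (𝓝 (∑ i : Fin M, if i < j then 1 - w i * c' else 0)))
    (hrow : ∀ c' : ℝ, 0 < c' → c' ≤ c → ∀ j : Fin M, D.RowG c' j (w j * c')) :
    ∃ (l : Lab S) (_ : Frm s.Q l fun j => w j * c), D.Is c l := by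
  obtain ⟨t, ht⟩ := exists_tower Pool.Agent.Helper93.FRM.famp D hw hc hwc hex hnum hrow M le_rfl 1 le_rfl
  have h1 : (fun i : ℕ => (i : ℝ) * (c / ((1 : ℕ) : ℝ))) = fun i : ℕ => (i : ℝ) * c := by
    funext i
    rw [Nat.cast_one, div_one]
  rw [h1] at ht
  exact fink hc ht

/-! ### qualities -/

/-- the data of a resolution `R` which knows the point, with the partition `B` of the condition `none` and the quality
`all labels` -/
def Dat.mk0 (s : MSys S M E ι) (B R : ∀ k, Setoid (S.F k).Ω)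
    (hB : ∃ K : ℕ → ℝ, S.Sub K ∧ ∀ᶠ k in UF, ∀ ω ω', (S.F k).μ ω ≠ 0 → (S.F k).μ ω' ≠ 0 → (S.F k).Z ω ω' → B k ω ω' →
      ∀ i, |s.Q.v k ω i - s.Q.v k ω' i| ≤ K k * S.dl 1 k) (hR : KnS R s.Q.v)
    (q : ℝ → ∀ k, FLab (S.F k) → ℝ → Prop) (qm : ∀ c k (l : FLab (S.F k)) η η', η ≤ η' → q c k l η → q c k l η')
    (qr : ∀ c k (l l' : FLab (S.F k)) η, Nonempty (Rf l l') → q c k l η → q c k l' η) : Dat s where
  B := B
  R := R
  hB := hB
  hR := hR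
  q := q
  qm := qm
  qr := qr

/-- atoms of the cells of level one -/
theorem cell_bd (Q : S.VV M) : ∃ K : ℕ → ℝ, S.Sub K ∧ ∀ᶠ k in UF, ∀ ω ω', (S.F k).μ ω ≠ 0 → (S.F k).μ ω' ≠ 0 →
    (S.F k).Z ω ω' → Setoid.ker (Q.cellv 1 k) ω ω' → ∀ i, |Q.v k ω i - Q.v k ω' i| ≤ K k * S.dl 1 k :=
  ⟨fun _ => 1, S.Sub_const zero_le_one, Eventually.of_forall fun k ω ω' _ _ _ r i => by
    rw [one_mul]
    exact abs_sub_le_of_floor_eq (S.dl_pos 1 k) (congrFun r i)⟩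

/-- a resolution which knows the point literally -/
theorem lit_kns {R : ∀ k, Setoid (S.F k).Ω} {Q : S.VV M} (hR : Lit R Q) : KnS R Q.v :=
  Eventually.of_forall fun k _ _ _ _ _ r => hR k r

/-- atoms of a partition which knows the point -/
theorem lit_bd {R : ∀ k, Setoid (S.F k).Ω} {Q : S.VV M} (hR : KnS R Q.v) : ∃ K : ℕ → ℝ, S.Sub K ∧ ∀ᶠ k in UF,
    ∀ ω ω', (S.F k).μ ω ≠ 0 → (S.F k).μ ω' ≠ 0 → (S.F k).Z ω ω' → R k ω ω' →
      ∀ i, |Q.v k ω i - Q.v k ω' i| ≤ K k * S.dl 1 k :=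
  ⟨fun _ => 0, S.Sub_const le_rfl, by
    filter_upwards [hR] with k hk ω ω' a b z r i
    rw [hk ω ω' a b z r, sub_self, abs_zero, zero_mul]⟩

/-- labels of all qualities close to zero give a label of quality zero -/
theorem Dat.diag [Finite ι] {s : MSys S M E ι} (D : Dat s) {c : ℝ}
    (h : ∀ u : ℕ, ∃ l : Lab S, D.Kl c l ∧ ∀ᶠ k in UF, D.q c k (l k) (1 / ((u : ℝ) + 1))) : ∃ l, D.Is c l := by
  choose l hl hq using h
  have hG : ∀ u : ℕ, ∀ᶠ k in UF, (∀ i, (l u k).leak (D.cd c i k) / (S.F k).n ≤ 1 / ((u : ℝ) + 1)) ∧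
      (l u k).leak (fc (D.R k)) = 0 ∧ D.q c k (l u k) (1 / ((u : ℝ) + 1)) := by
    intro u
    have h5 : (0 : ℝ) < 1 / ((u : ℝ) + 1) := by positivity
    have h1 : ∀ᶠ k in UF, ∀ i, (l u k).leak (D.cd c i k) / (S.F k).n ≤ 1 / ((u : ℝ) + 1) := by
      rw [Filter.eventually_all]
      intro i
      filter_upwards [((hl u).1 i).eventually (gt_mem_nhds h5)] with k hk using hk.le
    filter_upwards [h1, (hl u).2, hq u] with k a b e using ⟨a, b, e⟩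
  obtain ⟨y, j, hj, hy, hG'⟩ := dia' (X := fun k => FLab (S.F k)) l (fun u k x =>
      (∀ i, x.leak (D.cd c i k) / (S.F k).n ≤ 1 / ((u : ℝ) + 1)) ∧ x.leak (fc (D.R k)) = 0 ∧
        D.q c k x (1 / ((u : ℝ) + 1))) hG
  have h0 : Tendsto (fun k => 1 / ((j k : ℝ) + 1)) UF (𝓝 0) := tendsto_one_div_add_atTop_nhds_zero_nat.comp hj
  refine ⟨y, ⟨fun i => ?_, ?_⟩, fun η hη => ?_⟩
  · refine tendsto_of_tendsto_of_tendsto_of_le_of_le' tendsto_const_nhds h0 ?_ ?_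
    · exact Eventually.of_forall fun k => div_nonneg ((y k).leak_nonneg _) (S.F k).pos.le
    · filter_upwards [hG'] with k hk using hk.1 i
  · filter_upwards [hG'] with k hk using hk.2.1
  · filter_upwards [hG', h0.eventually (gt_mem_nhds hη)] with k h1 h2 using D.qm _ _ _ _ _ h2.le h1.2.2

/-! ### maximal labels -/

/-- the data of the labels with information at least `x c` -/
def Dat.inf (s : MSys S M E ι) {B R : ∀ k, Setoid (S.F k).Ω}
    (hB : ∃ K : ℕ → ℝ, S.Sub K ∧ ∀ᶠ k in UF, ∀ ω ω', (S.F k).μ ω ≠ 0 → (S.F k).μ ω' ≠ 0 → (S.F k).Z ω ω' → B k ω ω' →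
      ∀ i, |s.Q.v k ω i - s.Q.v k ω' i| ≤ K k * S.dl 1 k) (hR : KnS R s.Q.v) (x : ℝ → ℝ) : Dat s :=
  Dat.mk0 s B R hB hR (fun c k l η => x c - η ≤ l.info / (S.F k).n)
    (fun c k l η η' hη h => by linarith) (fun c k l l' η ⟨f⟩ h =>
      h.trans (div_le_div_of_nonneg_right f.info_le (S.F k).pos.le))

/-- FRTK for labels of maximal information, general form (`B`, `R` as in `Dat`; one condition is bounded) -/
theorem frtm [Finite ι] (s : MSys S M E ι) {B R : ∀ k, Setoid (S.F k).Ω}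
    (hB : ∃ K : ℕ → ℝ, S.Sub K ∧ ∀ᶠ k in UF, ∀ ω ω', (S.F k).μ ω ≠ 0 → (S.F k).μ ω' ≠ 0 → (S.F k).Z ω ω' → B k ω ω' →
      ∀ i, |s.Q.v k ω i - s.Q.v k ω' i| ≤ K k * S.dl 1 k) (hR : KnS R s.Q.v)
    (hbd : ∀ c, ∃ i₀, (scw s (fun k => fc (B k)) c i₀).Bd) {w : Fin M → ℝ}
    (hw : ∀ i, 1 ≤ w i) {c : ℝ} (hc : 0 < c) (hwc : ∀ i, w i * c < 1)
    (hnum : ∀ c' : ℝ, 0 < c' → c' ≤ c → ∀ j : Fin M, ∀ l : Lab S,
      Lab.IsMaxK (KC R) l (scw s (fun k => fc (B k)) c') →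
      Tendsto (fun k => h ((l k).p.map (pre s.Q j.val k)) (l k).v / (S.F k).n) UF
        (𝓝 (∑ i : Fin M, if i < j then 1 - w i * c' else 0)))
    (hrow : ∀ c' : ℝ, 0 < c' → c' ≤ c → ∀ j : Fin M, (Dat.inf s hB hR 0).RowG c' j (w j * c')) :
    ∃ (l : Lab S) (_ : Frm s.Q l fun j => w j * c), Lab.IsMaxK (KC R) l (scw s (fun k => fc (B k)) c) := by
  choose i₀ hi₀ using hbd
  have hex : ∀ c, ∃ l, Lab.IsMaxK (KC R) l (scw s (fun k => fc (B k)) c) := fun c =>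
    Lab.exists_maxK (KC R) _ (hi₀ c)
  choose L hL using hex
  have key : ∀ (c : ℝ) (l : Lab S), (Dat.inf s hB hR fun c => (L c).info).Is c l ↔
      Lab.IsMaxK (KC R) l (scw s (fun k => fc (B k)) c) := by
    intro c l
    constructor
    · rintro ⟨h1, h2⟩
      refine ⟨h1.1, h1.2, fun l' hl' hC' => ((hL c).2.2 l' hl' hC').trans ?_⟩
      refine le_of_forall_pos_le_add fun η hη => ?_
      have h3 : (L c).info - η ≤ l.info := const_le_ul (Lab.DMf.ub h1.1 (hi₀ c)) (h2 η hη)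
      linarith
    · intro h
      refine ⟨⟨h.1, h.2.1⟩, fun η hη => ?_⟩
      have h3 : Tendsto (fun k => (l k).info / (S.F k).n) UF (𝓝 l.info) := ul_tendsto (Lab.DMf.ub h.1 (hi₀ c))
      have h4 : (L c).info ≤ l.info := h.2.2 _ (hL c).1 (hL c).2.1
      filter_upwards [h3.eventually (lt_mem_nhds (show l.info - η < l.info by linarith))] with k hk
      show (L c).info - η ≤ (l k).info / (S.F k).n
      linarith
  obtain ⟨l, f, hl⟩ := frtg (Dat.inf s hB hR fun c => (L c).info) hw hc hwc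
    (fun c' _ _ => ⟨L c', (key c' _).mpr (hL c')⟩)
    (fun c' h0 h1 j l hl => hnum c' h0 h1 j l ((key c' l).mp hl)) (fun c' h0 h1 j => hrow c' h0 h1 j)
  exact ⟨l, f, (key c l).mp hl⟩

/-! ### maximal K-labels of one system -/

/-- the data of the maximal K-labels -/
def Dat.kap (s : MSys S M E ι) {R : ∀ k, Setoid (S.F k).Ω} (hR : KnS R s.Q.v) (x : ℝ → ℝ) : Dat s :=
  Dat.inf s (B := fun k => Setoid.ker (s.Q.cellv 1 k)) (cell_bd s.Q) hR x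

theorem Dat.kap_kl (s : MSys S M E ι) {R : ∀ k, Setoid (S.F k).Ω} (hR : KnS R s.Q.v) (x : ℝ → ℝ) (c : ℝ) (l : Lab S) :
    (Dat.kap s hR x).Kl c l ↔ DMK s R c l := by
  have h1 : (Dat.kap s hR x).cd c = s.cnd c := scw_cnd s c
  unfold Dat.Kl DMK
  rw [h1]
  exact Iff.rfl

/-- the information of the maximal K-labels -/
def kin (s : MSys S M E ι) [Countable ι] (R : ∀ k, Setoid (S.F k).Ω) (c : ℝ) : ℝ :=
  (Lab.exists_maxK (KC R) (s.cnd c) (i₀ := none) (pcd_Bd s.Q)).choose.info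

theorem Dat.kap_is [Countable ι] (s : MSys S M E ι) {R : ∀ k, Setoid (S.F k).Ω} (hR : KnS R s.Q.v) (c : ℝ) (l : Lab S) :
    (Dat.kap s hR (kin s R)).Is c l ↔ IsKapK s R c l := by
  have h0 := (Lab.exists_maxK (KC R) (s.cnd c) (i₀ := none) (pcd_Bd s.Q)).choose_spec
  constructor
  · rintro ⟨h1, h2⟩
    rw [Dat.kap_kl] at h1
    refine ⟨h1.1, h1.2, fun l' hl' hC' => (h0.2.2 l' hl' hC').trans ?_⟩
    refine le_of_forall_pos_le_add fun η hη => ?_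
    have h3 : kin s R c - η ≤ l.info :=
      const_le_ul (Lab.DMf.ub h1.1 (i := none) (pcd_Bd s.Q)) (h2 η hη)
    have h4 : (Lab.exists_maxK (KC R) (s.cnd c) (i₀ := none) (pcd_Bd s.Q)).choose.info = kin s R c := rfl
    linarith
  · intro h
    refine ⟨(Dat.kap_kl s hR _ c l).mpr ⟨h.1, h.2.1⟩, fun η hη => ?_⟩
    have h3 : Tendsto (fun k => (l k).info / (S.F k).n) UF (𝓝 l.info) :=
      ul_tendsto (Lab.DMf.ub h.1 (i := none) (pcd_Bd s.Q))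
    have h4 : kin s R c ≤ l.info := h.2.2 _ h0.1 h0.2.1
    filter_upwards [h3.eventually (lt_mem_nhds (show l.info - η < l.info by linarith))] with k hk
    show kin s R c - η ≤ (l k).info / (S.F k).n
    linarith

/-- ROW_j of K-labels at the window `c` -/
def RowPK (s : MSys S M E ι) (R : ∀ k, Setoid (S.F k).Ω) (c : ℝ) (j : Fin M) (θ : ℝ) : Prop :=
  ∃ (Dg : ℕ) (l : Lab S) (p : ∀ k, (l.sp.F k).Ω → MvPolynomial (Fin M) ℝ), DMK s R c l ∧
    (∀ k ω, (p k ω).totalDegree ≤ Dg) ∧ (∀ k ω, ∀ a ∈ (p k ω).vars, a ≤ j) ∧ Knw l.sp l.V p ∧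
    ∃ K : ℕ → ℝ, S.Sub K ∧ Sp.Typ (S := l.sp) fun k ω =>
      |MvPolynomial.eval ((l.pj.vv s.Q).v k ω) (p k ω)| ≤ K k ∧
      2 ^ (θ * (S.F k).n) ≤ K k * |MvPolynomial.eval ((l.pj.vv s.Q).v k ω) (MvPolynomial.pderiv j (p k ω))|

/-- FRTK for the maximal K-labels of one system -/
theorem frtk [Finite ι] (s : MSys S M E ι) {R : ∀ k, Setoid (S.F k).Ω} (hR : KnS R s.Q.v) {w : Fin M → ℝ}
    (hw : ∀ i, 1 ≤ w i) {c : ℝ} (hc : 0 < c) (hwc : ∀ i, w i * c < 1)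
    (hnum : ∀ c' : ℝ, 0 < c' → c' ≤ c → ∀ j : Fin M, ∀ l : Lab S, IsKapK s R c' l →
      Tendsto (fun k => h ((l k).p.map (pre s.Q j.val k)) (l k).v / (S.F k).n) UF
        (𝓝 (∑ i : Fin M, if i < j then 1 - w i * c' else 0)))
    (hrow : ∀ c' : ℝ, 0 < c' → c' ≤ c → ∀ j : Fin M, RowPK s R c' j (w j * c')) :
    ∃ (l : Lab S) (_ : Frm s.Q l fun j => w j * c), IsKapK s R c l := by
  obtain ⟨l, f, hl⟩ := frtg (Dat.kap s hR (kin s R)) hw hc hwc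
    (fun c' _ _ => ⟨_, (Dat.kap_is s hR c' _).mpr
      (Lab.exists_maxK (KC R) (s.cnd c') (i₀ := none) (pcd_Bd s.Q)).choose_spec⟩)
    (fun c' h0 h1 j l hl => hnum c' h0 h1 j l ((Dat.kap_is s hR c' l).mp hl))
    (fun c' h0 h1 j => by
      obtain ⟨Dg, l, p, a, b⟩ := hrow c' h0 h1 j
      exact ⟨Dg, l, p, (Dat.kap_kl s hR _ c' l).mpr a, b⟩)
  exact ⟨l, f, (Dat.kap_is s hR c l).mp hl⟩

/-- FRTK, literal labels -/
theorem frtk_lit [Finite ι] (s : MSys S M E ι) {R : ∀ k, Setoid (S.F k).Ω} (hR : KnS R s.Q.v) {w : Fin M → ℝ}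
    (hw : ∀ i, 1 ≤ w i) {c : ℝ} (hc : 0 < c) (hwc : ∀ i, w i * c < 1)
    (hnum : ∀ c' : ℝ, 0 < c' → c' ≤ c → ∀ j : Fin M, ∀ l : Lab S, IsKapK s R c' l →
      Tendsto (fun k => h ((l k).p.map (pre s.Q j.val k)) (l k).v / (S.F k).n) UF
        (𝓝 (∑ i : Fin M, if i < j then 1 - w i * c' else 0)))
    (hrow : ∀ c' : ℝ, 0 < c' → c' ≤ c → ∀ j : Fin M, RowPK s R c' j (w j * c')) :
    ∃ (Z : ∀ k, Setoid (S.F k).Ω) (_ : Frm s.Q (Lab.ofZ Z) fun j => w j * c), (∀ᶠ k in UF, R k ⊓ (S.F k).Z ≤ Z k) ∧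
      IsKapK s R c (Lab.ofZ Z) := by
  obtain ⟨l, f, hl⟩ := frtk s hR hw hc hwc hnum hrow
  exact Pool.Agent.Helper93.FRM.frm_litK hl f

end

end Pool.Agent.Helper85.FRG
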