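import Pool.Agent.Helper85.FRG.Odt

/-! FRTK: base of the induction; the data of one layer step over one amalgam. -/

set_option autoImplicit false

namespace Pool.Agent.Helper85.FRG

open Finset Filter Topology Pool.Agent.Helper69.RK Pool.Agent.Helper31.EC Pool.Agent.Helper31.EC.Sp
open Pool.Agent.Helper40.EL Pool.Agent.Helper89.LX Pool.Agent.Helper3.LF Pool.Agent.Helper84.MT Pool.Agent.Helper36.AM
open Pool.Agent.Helper85.FRM
open Pool.Agent.Helper66.MT (cndB cndB_eq)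

noncomputable section

variable {S : Sp} {M : ℕ} {E : ℕ → ℕ} {ι : Type}

section
variable {X : ℕ → ∀ k, TwF (S.F k) M} {mf : ℕ} (Am : Ama (fun (a : Fin (mf + 1)) k => (X a.val k).lab 0))
  (cc : ℕ → ℕ → Prop)

/-- leaks which are exactly zero -/
theorem Vf_zero (i k : ℕ) (A : FL (S.F k)) (h : ∀ a, a ≤ mf → cc i a → ((X a k).lab i).leak A = 0) :
    (Am.lab (Vf Am cc i) k).leak A = 0 := by
  have h1 := Am.leak_J (fun a k => (X a.val k).V i) (fun a => cc i a.val) k A (fun _ => 0) (fun _ => le_rfl)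
    (fun a ha => (h a.val (by have := a.isLt; omega) ha).le)
  rw [Finset.sum_const_zero] at h1
  exact le_antisymm h1 (FLab.leak_nonneg _ _)

/-- the join refines its members -/
def Vf_rf {i a : ℕ} (ha : a ≤ mf) (hc : cc i a) (k : ℕ) : Rf ((X a k).lab i) (Am.lab (Vf Am cc i) k) where
  r := Am.q k ⟨a, Nat.lt_succ_of_le ha⟩
  cm := fun ω hω => Am.cm k ⟨a, Nat.lt_succ_of_le ha⟩ ω hω
  le := fun _ _ _ _ _ h => h ⟨a, Nat.lt_succ_of_le ha⟩ hc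

end

/-- BASE of the induction: no layers -/
theorem tw_base (hF : FAMP) [Finite ι] {s : MSys S M E ι} (D : Dat s) (w : Fin M → ℝ) {sg : ℕ → ℝ} (hs : Monotone sg)
    (m : ℕ) (hex : ∀ i, 1 ≤ i → i ≤ m → ∃ l, D.Is (sg i) l) : ∃ t : ∀ k, TwF (S.F k) M, OkT D w sg m 0 t := by
  classical
  have hex' : ∀ i : ℕ, ∃ l : Lab S, 1 ≤ i → i ≤ m → D.Is (sg i) l := by
    intro i
    by_cases hi : 1 ≤ i ∧ i ≤ m
    · obtain ⟨l, hl⟩ := hex i hi.1 hi.2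
      exact ⟨l, fun _ _ => hl⟩
    · exact ⟨fun k => FLab.triv (S.F k), fun a b => absurd ⟨a, b⟩ hi⟩
  choose L hL using hex'
  set X : ℕ → ∀ k, TwF (S.F k) M := fun a k => rowTw (L a k) (fun _ => 0) with hX
  obtain ⟨Am⟩ := exists_ama hF (fun (a : Fin (m + 1)) k => (X a.val k).lab 0)
  set cc : ℕ → ℕ → Prop := fun i a => 1 ≤ a ∧ a ≤ i with hcc
  refine ⟨fun k => ⟨Am.U k, Am.p k, Am.hn k, fun i => Vf Am cc i k, fun _ _ => 0, fun _ => True⟩, fun η hη => ?_⟩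
  have h1 : ∀ᶠ k in UF, ∀ (i : Fin (m + 1)) (a : Option ι), 1 ≤ i.val →
      (Am.lab (Vf Am cc i.val) k).leak (D.cd (sg i.val) a k) ≤ η * (S.F k).n := by
    rw [Filter.eventually_all]
    intro i
    rw [Filter.eventually_all]
    intro a
    by_cases hi : 1 ≤ i.val
    · have h2 := nul_ev (Vf_nul Am cc i.val (D.cd (sg i.val) a) fun b hbm hb =>
        D.mono (hs hb.2) (hL b hb.1 hbm).1.1 a) hη
      filter_upwards [h2] with k hk _ using hk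
    · exact Eventually.of_forall fun k h => absurd h hi
  have h2 : ∀ᶠ k in UF, ∀ i : Fin (m + 1), 1 ≤ i.val → D.q (sg i.val) k (L i.val k) η := by
    rw [Filter.eventually_all]
    intro i
    by_cases hi : 1 ≤ i.val
    · filter_upwards [(hL i.val hi (by have := i.isLt; omega)).2 η hη] with k hk _ using hk
    · exact Eventually.of_forall fun k h => absurd h hi
  have h3 : ∀ᶠ k in UF, ∀ i : Fin (m + 1), 1 ≤ i.val → (L i.val k).leak (fc (D.R k)) = 0 := by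
    rw [Filter.eventually_all]
    intro i
    by_cases hi : 1 ≤ i.val
    · filter_upwards [(hL i.val hi (by have := i.isLt; omega)).1.2] with k hk _ using hk
    · exact Eventually.of_forall fun k h => absurd h hi
  filter_upwards [h1, h2, h3] with k g1 g2 g3
  refine ⟨fun i hi him a => g1 ⟨i, by omega⟩ a hi, fun i hi him => ?_, fun i hi him => ?_, ?_⟩
  · exact Vf_zero Am cc i k (fc (D.R k)) fun a ham ha => g3 ⟨a, by omega⟩ ha.1
  · exact D.qr _ _ _ _ _ ⟨Vf_rf Am cc him ⟨hi, le_rfl⟩ k⟩ (g2 ⟨i, by omega⟩ hi)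
  refine ⟨fun i => ?_, fun i ω => Fr_zero w 0, fun _ _ => rfl, fun _ _ _ _ _ _ _ _ => rfl, ?_, fun ω hω _ => ?_⟩
  · exact Vf_anti Am cc (fun i a h => ⟨h.1, h.2.trans (Nat.le_succ i)⟩) (fun _ _ _ _ => le_rfl) i k
  · have h3 : (Am.U k).pb (fun ω => ¬ True) ≤ 0 := by
      refine (FSp.pb_mono (Am.U k) (E' := fun _ => False) (fun ω _ h => h trivial)).trans (le_of_eq ?_)
      unfold FSp.pb mass res
      apply Finset.sum_eq_zero
      intro ω _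
      simp
    exact h3.trans hη.le
  · exact ⟨fun _ _ => Fr_zero w 0, fun _ _ _ _ l hl => absurd hl (Nat.not_lt_zero _),
      fun _ _ l hl => absurd hl (Nat.not_lt_zero _), fun _ _ l hl => absurd hl (Nat.not_lt_zero _)⟩

/-- rows as towers -/
structure RowX {s : MSys S M E ι} (D : Dat s) (c : ℝ) (j : Fin M) (θ : ℝ) (Dg : ℕ) (x : ∀ k, TwF (S.F k) M) :
    Prop where
  kl : D.Kl c (fun k => (x k).lab 0)
  cst : ∀ k i, (x k).V i = (x k).V 0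
  deg : ∀ k ω, ((x k).P 0 ω j).totalDegree ≤ Dg
  vars : ∀ k ω, ∀ a ∈ ((x k).P 0 ω j).vars, a ≤ j
  knw : ∀ᶠ k in UF, ∀ ω ω', (x k).T.μ ω ≠ 0 → (x k).T.μ ω' ≠ 0 → (x k).T.Z ω ω' → (x k).V 0 ω ω' →
    (x k).P 0 ω j = (x k).P 0 ω' j
  bd : ∃ K : ℕ → ℝ, S.Sub K ∧ Tendsto (fun k => (x k).T.pb (fun ω => ¬
    (|MvPolynomial.eval (s.Q.v k ((x k).p.π ω)) ((x k).P 0 ω j)| ≤ K k ∧
      2 ^ (θ * (S.F k).n) ≤ K k * |MvPolynomial.eval (s.Q.v k ((x k).p.π ω)) (MvPolynomial.pderiv j ((x k).P 0 ω j))|)))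
    UF (𝓝 0)

theorem exists_rowX {s : MSys S M E ι} {D : Dat s} {c : ℝ} {j : Fin M} {θ : ℝ} (h : D.RowG c j θ) :
    ∃ (Dg : ℕ) (x : ∀ k, TwF (S.F k) M), RowX D c j θ Dg x := by
  obtain ⟨Dg, l, p, h1, h2, h3, h4, K, hK, h5⟩ := h
  exact ⟨Dg, fun k => rowTw (l k) (p k), h1, fun _ _ => rfl, h2, h3, h4, K, hK, h5⟩

theorem RowX.mono {s : MSys S M E ι} {D : Dat s} {c : ℝ} {j : Fin M} {θ : ℝ} {Dg Dg' : ℕ}
    {x : ∀ k, TwF (S.F k) M} (h : RowX D c j θ Dg x) (hD : Dg ≤ Dg') : RowX D c j θ Dg' x :=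
  ⟨h.kl, h.cst, fun k ω => (h.deg k ω).trans hD, h.vars, h.knw, h.bd⟩

/-- the towers of one layer step: number `0` is the exact tower of the layers `< j`, number `i` is the row of the window
`sg i` -/
structure StG {s : MSys S M E ι} (D : Dat s) (w : Fin M → ℝ) (sg : ℕ → ℝ) (m Dg : ℕ) (j : Fin M)
    (X : ℕ → ∀ k, TwF (S.F k) M) : Prop where
  tw : OkT D w sg m j.val (X 0)
  str : ∀ k, (X 0 k).Str w m j.val
  row : ∀ i, 1 ≤ i → i ≤ m → RowX D (sg i) j (w j * sg i) Dg (X i)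

theorem exists_stg {s : MSys S M E ι} {D : Dat s} {w : Fin M → ℝ} {sg : ℕ → ℝ} {m : ℕ} {j : Fin M}
    {t : ∀ k, TwF (S.F k) M} (ht : OkT D w sg m j.val t)
    (hr : ∀ i, 1 ≤ i → i ≤ m → D.RowG (sg i) j (w j * sg i)) :
    ∃ (Dg : ℕ) (X : ℕ → ∀ k, TwF (S.F k) M), StG D w sg m Dg j X := by
  classical
  obtain ⟨t', ht', hs⟩ := ht.clean
  have h1 : ∀ i : ℕ, ∃ (Dg : ℕ) (x : ∀ k, TwF (S.F k) M), 1 ≤ i → i ≤ m → RowX D (sg i) j (w j * sg i) Dg x := by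
    intro i
    by_cases hi : 1 ≤ i ∧ i ≤ m
    · obtain ⟨Dg, x, hx⟩ := exists_rowX (hr i hi.1 hi.2)
      exact ⟨Dg, x, fun _ _ => hx⟩
    · exact ⟨0, t', fun a b => absurd ⟨a, b⟩ hi⟩
  choose Dg x hx using h1
  refine ⟨(Finset.range (m + 1)).sup Dg, fun i => if i = 0 then t' else x i, ?_, ?_, ?_⟩
  · rw [if_pos rfl]
    exact ht'
  · intro k
    rw [if_pos rfl]
    exact hs k
  · intro i h1 h2
    rw [if_neg (by omega)]
    exact (hx i h1 h2).mono (Finset.le_sup (f := Dg) (Finset.mem_range.mpr (by omega)))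

section
variable {m : ℕ} {X : ℕ → ∀ k, TwF (S.F k) M} (Am : Ama (fun (a : Fin (m + 1)) k => (X a.val k).lab 0))
  {s : MSys S M E ι} {D : Dat s} {w : Fin M → ℝ} {sg : ℕ → ℝ} {Dg : ℕ} {j : Fin M} (H : StG D w sg m Dg j X)

include H

theorem Vg_anti (i k : ℕ) : Vg Am (i + 1) k ≤ Vg Am i k := by
  apply Vf_anti Am (fun i a => a ≤ i) (fun i a h => Nat.le_succ_of_le h)
  intro a k i ha
  rcases Nat.eq_zero_or_pos a with h0 | h0
  · subst h0
    exact (H.str k).anti i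
  · rw [(H.row a h0 ha).cst k (i + 1), (H.row a h0 ha).cst k i]

theorem lab_cst {a : ℕ} (h1 : 1 ≤ a) (ha : a ≤ m) (i k : ℕ) : (X a k).lab i = (X a k).lab 0 := by
  unfold TwF.lab
  rw [(H.row a h1 ha).cst k i]

theorem Lg_DM (hs : Monotone sg) {i : ℕ} (h1 : 1 ≤ i) (hi : i ≤ m) : (Lg Am i).DMf (D.cd (sg i)) := by
  intro κ
  apply Vf_nul Am (fun i a => a ≤ i) i (D.cd (sg i) κ)
  intro a ha hai
  rcases Nat.eq_zero_or_pos a with h0 | h0
  · subst h0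
    show Tendsto _ _ _
    rw [Metric.tendsto_nhds]
    intro ε hε
    filter_upwards [H.tw (ε / 2) (by linarith)] with k hk
    have hn := (S.F k).pos
    have h2 := hk.leak i h1 hi κ
    rw [Real.dist_eq, sub_zero, abs_of_nonneg (div_nonneg (FLab.leak_nonneg _ _) hn.le), div_lt_iff₀ hn]
    nlinarith
  · have h2 := D.mono (hs hai) (H.row a h0 ha).kl.1 κ
    have h3 : (fun k => ((X a k).lab i).leak (D.cd (sg i) κ k)) =
        fun k => ((X a k).lab 0).leak (D.cd (sg i) κ k) := by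
      funext k
      rw [lab_cst H h0 ha i k]
    rw [h3]
    exact h2

theorem Lg_zero {i : ℕ} (h1 : 1 ≤ i) (hi : i ≤ m) : ∀ᶠ k in UF, (Lg Am i k).leak (fc (D.R k)) = 0 := by
  have h2 : ∀ᶠ k in UF, ∀ a : Fin (m + 1), 1 ≤ a.val → ((X a.val k).lab i).leak (fc (D.R k)) = 0 := by
    rw [Filter.eventually_all]
    intro a
    by_cases ha : 1 ≤ a.val
    · filter_upwards [(H.row a.val ha (by have := a.isLt; omega)).kl.2] with k hk _
      rw [lab_cst H ha (by have := a.isLt; omega) i k]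
      exact hk
    · exact Eventually.of_forall fun k h => absurd h ha
  filter_upwards [h2, H.tw 1 one_pos] with k g1 g2
  apply Vf_zero Am (fun i a => a ≤ i) i k
  intro a ha _
  rcases Nat.eq_zero_or_pos a with h0 | h0
  · subst h0
    exact g2.ex i h1 hi
  · exact g1 ⟨a, by omega⟩ h0

theorem Lg_q {i : ℕ} (h1 : 1 ≤ i) (hi : i ≤ m) (η : ℝ) (hη : 0 < η) : ∀ᶠ k in UF, D.q (sg i) k (Lg Am i k) η := by
  filter_upwards [H.tw η hη] with k hk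
  exact D.qr _ _ _ _ _ ⟨Vf_rf Am (fun i a => a ≤ i) (Nat.zero_le m) (Nat.zero_le i) k⟩ (hk.qq i h1 hi)

theorem Lg_is (hs : Monotone sg) {i : ℕ} (h1 : 1 ≤ i) (hi : i ≤ m) : D.Is (sg i) (Lg Am i) :=
  ⟨⟨Lg_DM Am H hs h1 hi, Lg_zero Am H h1 hi⟩, Lg_q Am H h1 hi⟩

theorem Pg_fr (i k : ℕ) (ω : (Am.U k).Ω) : Fr w j.val (Pg Am i k ω) := (H.str k).fr i _

theorem Pg_zero (k : ℕ) (ω : (Am.U k).Ω) (l : Fin M) : Pg Am 0 k ω l = 0 := (H.str k).zero _ l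

theorem Pg_knw {i : ℕ} (hi : i ≤ m) {k : ℕ} {ω ω' : (Am.U k).Ω} (hω : (Am.U k).μ ω ≠ 0) (hω' : (Am.U k).μ ω' ≠ 0)
    (hZ : (Am.U k).Z ω ω') (hV : Vg Am i k ω ω') : Pg Am i k ω = Pg Am i k ω' :=
  (H.str k).meas i hi _ _ ((qf Am 0 (Nat.zero_le m) k).supp ω hω) ((qf Am 0 (Nat.zero_le m) k).supp ω' hω')
    (((qf Am 0 (Nat.zero_le m) k).hZ ω ω' hω hω').mp hZ) (Vg_V Am (Nat.zero_le i) (Nat.zero_le m) hV)

theorem Ag_typ : Am.sp.Typ (Ag Am) := Am.typ ⟨0, Nat.succ_pos m⟩ H.tw.typA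

theorem Pg_sta (η : ℝ) (hη : 0 < η) : ∀ᶠ k in UF, ∀ ω, (Am.U k).μ ω ≠ 0 → Ag Am k ω →
    Sta (2 ^ (S.F k).n) w sg m j.val (2 ^ (η * (S.F k).n)) (fun i => Pg Am i k ω) (s.Q.v k ((Am.p k).π ω)) := by
  filter_upwards [H.tw η hη] with k hk ω hω hA
  have h1 := hk.cor.sta _ ((qf Am 0 (Nat.zero_le m) k).supp ω hω) hA
  rw [qf_cm Am 0 (Nat.zero_le m) k ω hω] at h1
  exact h1

theorem Pg_tame : ∃ K : ℕ → ℝ, S.Sub K ∧ (∀ k, 1 ≤ K k) ∧ ∀ᶠ k in UF, ∀ ω, (Am.U k).μ ω ≠ 0 → Ag Am k ω →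
    Sta (2 ^ (S.F k).n) w sg m j.val (K k) (fun i => Pg Am i k ω) (s.Q.v k ((Am.p k).π ω)) := by
  obtain ⟨K, hK, hK1, h1⟩ := tame_of_eta (S := S) (fun k B => ∀ ω, (Am.U k).μ ω ≠ 0 → Ag Am k ω →
    Sta (2 ^ (S.F k).n) w sg m j.val B (fun i => Pg Am i k ω) (s.Q.v k ((Am.p k).π ω))) (Pg_sta Am H)
  exact ⟨K, hK, hK1, h1⟩

theorem pg_deg (i k : ℕ) (ω : (Am.U k).Ω) : (pg Am j i k ω).totalDegree ≤ Dg := by
  unfold pg
  by_cases h : i ≤ m
  · rw [dif_pos h]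
    rcases Nat.eq_zero_or_pos i with h0 | h0
    · subst h0
      rw [(H.str k).zero, MvPolynomial.totalDegree_zero]
      exact Nat.zero_le Dg
    · exact (H.row i h0 h).deg k _
  · rw [dif_neg h, MvPolynomial.totalDegree_zero]
    exact Nat.zero_le Dg

theorem pg_vars (i k : ℕ) (ω : (Am.U k).Ω) : ∀ a ∈ (pg Am j i k ω).vars, a ≤ j := by
  unfold pg
  intro a ha
  by_cases h : i ≤ m
  · rw [dif_pos h] at ha
    rcases Nat.eq_zero_or_pos i with h0 | h0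
    · subst h0
      rw [(H.str k).zero, MvPolynomial.vars_0] at ha
      exact absurd ha (Finset.notMem_empty _)
    · exact (H.row i h0 h).vars k _ a ha
  · rw [dif_neg h, MvPolynomial.vars_0] at ha
    exact absurd ha (Finset.notMem_empty _)

theorem pg_knw {i : ℕ} (h1 : 1 ≤ i) (hi : i ≤ m) : Knw Am.sp (fun k => Vg Am i k) (pg Am j i) := by
  have h2 := (H.row i h1 hi).knw
  show ∀ᶠ k in UF, ∀ ω ω' : (Am.U k).Ω, (Am.U k).μ ω ≠ 0 → (Am.U k).μ ω' ≠ 0 → (Am.U k).Z ω ω' → Vg Am i k ω ω' →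
    pg Am j i k ω = pg Am j i k ω'
  filter_upwards [h2] with k hk ω ω' hω hω' hZ hV
  unfold pg
  rw [dif_pos hi, dif_pos hi]
  have h3 := Vg_V Am (le_refl i) hi hV
  rw [(H.row i h1 hi).cst k i] at h3
  exact hk _ _ ((qf Am i hi k).supp ω hω) ((qf Am i hi k).supp ω' hω') (((qf Am i hi k).hZ ω ω' hω hω').mp hZ) h3

theorem pg_bd {i : ℕ} (h1 : 1 ≤ i) (hi : i ≤ m) : ∃ K : ℕ → ℝ, S.Sub K ∧ Am.sp.Typ fun k (ω : (Am.U k).Ω) =>
    |MvPolynomial.eval (s.Q.v k ((Am.p k).π ω)) (pg Am j i k ω)| ≤ K k ∧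
    2 ^ (w j * sg i * (S.F k).n) ≤
      K k * |MvPolynomial.eval (s.Q.v k ((Am.p k).π ω)) (MvPolynomial.pderiv j (pg Am j i k ω))| := by
  obtain ⟨K, hK, hT⟩ := (H.row i h1 hi).bd
  refine ⟨K, hK, ?_⟩
  have h2 := Am.typ ⟨i, Nat.lt_succ_of_le hi⟩ (B := fun k ω =>
    (|MvPolynomial.eval (s.Q.v k ((X i k).p.π ω)) ((X i k).P 0 ω j)| ≤ K k ∧
      2 ^ (w j * sg i * (S.F k).n) ≤ K k * |MvPolynomial.eval (s.Q.v k ((X i k).p.π ω))
        (MvPolynomial.pderiv j ((X i k).P 0 ω j))|)) hT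
  refine h2.mono (Eventually.of_forall fun k ω hω h3 => ?_)
  have h4 := qf_cm Am i hi k ω hω
  have h5 : pg Am j i k ω = (X i k).P 0 ((qf Am i hi k).π ω) j := by
    unfold pg
    rw [dif_pos hi]
  rw [h5, ← h4]
  exact h3

end

end

end Pool.Agent.Helper85.FRG
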