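import Pool.Agent.Helper85.FRM.Lstp
import Pool.Agent.Helper52.GF.Kr
import Pool.Agent.Helper89.RAK.Kz

/-! FRTK (frames of K-labels, general form): data `B`, `R`, a quality of labels; towers. -/

set_option autoImplicit false

namespace Pool.Agent.Helper85.FRG

open Finset Filter Topology Pool.Agent.Helper69.RK Pool.Agent.Helper31.EC Pool.Agent.Helper31.EC.Sp
open Pool.Agent.Helper40.EL Pool.Agent.Helper89.LX Pool.Agent.Helper3.LF Pool.Agent.Helper84.MT Pool.Agent.Helper36.AM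
open Pool.Agent.Helper85.FRM
open Pool.Agent.Helper66.MT (cndB cndB_eq)
open Pool.Agent.Helper52.GF (scw)

noncomputable section

/-! ### refinements of labels in extensions -/

/-- `l'` refines `l` in an extension -/
structure Rf {F : FSp} (l l' : FLab F) where
  r : FPj l'.T l.T
  cm : ∀ ω, l'.T.μ ω ≠ 0 → l.p.π (r.π ω) = l'.p.π ω
  le : ∀ ω ω', l'.T.μ ω ≠ 0 → l'.T.μ ω' ≠ 0 → l'.T.Z ω ω' → l'.V ω ω' → l.V (r.π ω) (r.π ω')

namespace Rf

variable {F : FSp} {l l' l'' : FLab F}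

theorem v_le (f : Rf l l') : f.r.map l.v ≤ l'.v := fc_le fun ω ω' a b c d => f.le ω ω' a b c d

theorem map_eq (f : Rf l l') (x : FL F) : l'.p.map x = f.r.map (l.p.map x) := by
  induction x using fc_ind with | _ A
  apply le_antisymm
  · apply fc_le
    intro w w' h h' _ e
    have e' : A (l.p.π (f.r.π w)) (l.p.π (f.r.π w')) := e
    show A (l'.p.π w) (l'.p.π w')
    rw [← f.cm w h, ← f.cm w' h']
    exact e'
  · apply fc_le
    intro w w' h h' _ e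
    have e' : A (l'.p.π w) (l'.p.π w') := e
    show A (l.p.π (f.r.π w)) (l.p.π (f.r.π w'))
    rw [f.cm w h, f.cm w' h']
    exact e'

theorem top_eq (f : Rf l l') : l'.p.top = f.r.map l.p.top := by
  apply le_antisymm
  · apply fc_le
    intro w w' h h' _ e
    have e' : l.p.π (f.r.π w) = l.p.π (f.r.π w') := e
    show l'.p.π w = l'.p.π w'
    rw [← f.cm w h, ← f.cm w' h']
    exact e'
  · apply fc_le
    intro w w' h h' _ e
    have e' : l'.p.π w = l'.p.π w' := e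
    show l.p.π (f.r.π w) = l.p.π (f.r.π w')
    rw [f.cm w h, f.cm w' h']
    exact e'

theorem info_le (f : Rf l l') : l.info ≤ l'.info := by
  have h1 : l.info = I (f.r.map l.v) (f.r.map l.p.top) (f.r.map ⊥) := (f.r.I_map _ _ _).symm
  have h2 : l'.info = I l'.v (f.r.map l.p.top) ⊥ := by
    rw [← f.top_eq]
    rfl
  rw [h1, h2, f.r.map_bot]
  exact I_mono_left (f.v_le.trans le_sup_left)

theorem h_le (f : Rf l l') (x : FL F) : h (l'.p.map x) l'.v ≤ h (l.p.map x) l.v := by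
  rw [f.map_eq, ← f.r.h_map (l.p.map x) l.v]
  exact h_anti f.v_le

/-- a finer partition of the same extension -/
def fin (l : FLab F) {V : Setoid l.T.Ω} (h : V ≤ l.V) : Rf l ⟨l.T, l.p, l.hn, V⟩ where
  r := (FLab.triv l.T).p
  cm := fun _ _ => rfl
  le := fun _ _ _ _ _ d => h d

/-- composition -/
def trans (f : Rf l l') (g : Rf l' l'') : Rf l l'' where
  r := g.r.comp f.r
  cm := fun ω hω => (f.cm _ (g.r.supp ω hω)).trans (g.cm ω hω)
  le := fun ω ω' a b c d => f.le _ _ (g.r.supp ω a) (g.r.supp ω' b) ((g.r.hZ ω ω' a b).mp c) (g.le ω ω' a b c d)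

end Rf

variable {S : Sp} {M : ℕ} {E : ℕ → ℕ} {ι : Type}

/-- DATA: the partition `B` of the condition `none` (its atoms determine the point up to `K 2 ^ (-n)`), the resolution
`R` (its atoms determine the point), a quality of labels which is kept under refinements -/
structure Dat (s : MSys S M E ι) where
  B : ∀ k, Setoid (S.F k).Ω
  R : ∀ k, Setoid (S.F k).Ω
  hB : ∃ K : ℕ → ℝ, S.Sub K ∧ ∀ᶠ k in UF, ∀ ω ω', (S.F k).μ ω ≠ 0 → (S.F k).μ ω' ≠ 0 → (S.F k).Z ω ω' → B k ω ω' →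
    ∀ i, |s.Q.v k ω i - s.Q.v k ω' i| ≤ K k * S.dl 1 k
  hR : ∀ᶠ k in UF, ∀ ω ω', (S.F k).μ ω ≠ 0 → (S.F k).μ ω' ≠ 0 → (S.F k).Z ω ω' → R k ω ω' → s.Q.v k ω = s.Q.v k ω'
  q : ℝ → ∀ k, FLab (S.F k) → ℝ → Prop
  qm : ∀ c k (l : FLab (S.F k)) η η', η ≤ η' → q c k l η → q c k l η'
  qr : ∀ c k (l l' : FLab (S.F k)) η, Nonempty (Rf l l') → q c k l η → q c k l' η

namespace Dat

variable {s : MSys S M E ι} (D : Dat s)

/-- the conditions: `B` and the windows `c` -/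
def cd (c : ℝ) : Option ι → Part S := scw s (fun k => fc (D.B k)) c

/-- partitions of the conditions -/
def cb (c : ℝ) : Option ι → ∀ k, Setoid (S.F k).Ω
  | none => D.B
  | some i => cndB s c (some i)

theorem cd_eq (c : ℝ) (κ : Option ι) (k : ℕ) : D.cd c κ k = fc (D.cb c κ k) := by
  cases κ <;> rfl

theorem mono {a b : ℝ} (hab : a ≤ b) {l : Lab S} (h : l.DMf (D.cd a)) : l.DMf (D.cd b) := by
  refine Lab.DMf.mono h fun i => ⟨i, ?_⟩
  rcases i with _ | i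
  · exact PLe.refl _
  · exact (s.lf i).win_mono hab

/-- K-LABELS of the window `c` -/
def Kl (c : ℝ) (l : Lab S) : Prop := l.DMf (D.cd c) ∧ ∀ᶠ k in UF, (l k).leak (fc (D.R k)) = 0

/-- K-LABELS with the quality -/
def Is (c : ℝ) (l : Lab S) : Prop := D.Kl c l ∧ ∀ η : ℝ, 0 < η → ∀ᶠ k in UF, D.q c k (l k) η

theorem Kl.mono {D : Dat s} {a b : ℝ} (hab : a ≤ b) {l : Lab S} (h : D.Kl a l) : D.Kl b l := ⟨D.mono hab h.1, h.2⟩

/-- ROW_j at the window `c`: a K-label knows a polynomial -/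
def RowG (c : ℝ) (j : Fin M) (θ : ℝ) : Prop :=
  ∃ (Dg : ℕ) (l : Lab S) (p : ∀ k, (l.sp.F k).Ω → MvPolynomial (Fin M) ℝ), D.Kl c l ∧
    (∀ k ω, (p k ω).totalDegree ≤ Dg) ∧ (∀ k ω, ∀ a ∈ (p k ω).vars, a ≤ j) ∧ Knw l.sp l.V p ∧
    ∃ K : ℕ → ℝ, S.Sub K ∧ Sp.Typ (S := l.sp) fun k ω =>
      |MvPolynomial.eval ((l.pj.vv s.Q).v k ω) (p k ω)| ≤ K k ∧
      2 ^ (θ * (S.F k).n) ≤ K k * |MvPolynomial.eval ((l.pj.vv s.Q).v k ω) (MvPolynomial.pderiv j (p k ω))|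

end Dat

/-! ### towers -/

/-- the frames of a tower, up to `η` -/
structure Cor {F : FSp} (Q : F.Ω → Fin M → ℝ) (w : Fin M → ℝ) (sg : ℕ → ℝ) (m J : ℕ) (η : ℝ) (t : TwF F M) :
    Prop where
  anti : ∀ i, t.V (i + 1) ≤ t.V i
  fr : ∀ i ω, Fr w J (t.P i ω)
  zero : ∀ ω l, t.P 0 ω l = 0
  meas : ∀ i, i ≤ m → ∀ ω ω', t.T.μ ω ≠ 0 → t.T.μ ω' ≠ 0 → t.T.Z ω ω' → t.V i ω ω' → t.P i ω = t.P i ω'
  typ : t.T.pb (fun ω => ¬ t.A ω) ≤ η
  sta : ∀ ω, t.T.μ ω ≠ 0 → t.A ω → Sta (2 ^ F.n) w sg m J (2 ^ (η * F.n)) (fun i => t.P i ω) (Q (t.p.π ω))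

/-- QUALITY of a tower with the windows `sg i`, `i ≤ m`, and frames of the layers `< J`, up to `η` -/
structure OkG {s : MSys S M E ι} (D : Dat s) (w : Fin M → ℝ) (sg : ℕ → ℝ) (m J : ℕ) (η : ℝ) (k : ℕ)
    (t : TwF (S.F k) M) : Prop where
  leak : ∀ i, 1 ≤ i → i ≤ m → ∀ a, (t.lab i).leak (D.cd (sg i) a k) ≤ η * (S.F k).n
  ex : ∀ i, 1 ≤ i → i ≤ m → (t.lab i).leak (fc (D.R k)) = 0
  qq : ∀ i, 1 ≤ i → i ≤ m → D.q (sg i) k (t.lab i) η
  cor : Cor (s.Q.v k) w sg m J η t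

/-- exact towers -/
def OkT {s : MSys S M E ι} (D : Dat s) (w : Fin M → ℝ) (sg : ℕ → ℝ) (m J : ℕ) (t : ∀ k, TwF (S.F k) M) : Prop :=
  ∀ η : ℝ, 0 < η → ∀ᶠ k in UF, OkG D w sg m J η k (t k)

section
variable {s : MSys S M E ι} {D : Dat s} {w : Fin M → ℝ} {sg sg' : ℕ → ℝ} {m m' J : ℕ} {η η' : ℝ} {k : ℕ}

theorem Cor.str {F : FSp} {Q : F.Ω → Fin M → ℝ} {t : TwF F M} (h : Cor Q w sg m J η t) : t.Str w m J :=
  ⟨h.anti, h.fr, h.zero, h.meas⟩

theorem Cor.mono {F : FSp} {Q : F.Ω → Fin M → ℝ} {t : TwF F M} (h : Cor Q w sg m J η t) (hη : η ≤ η') :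
    Cor Q w sg m J η' t where
  anti := h.anti
  fr := h.fr
  zero := h.zero
  meas := h.meas
  typ := h.typ.trans hη
  sta := fun ω h1 h2 => (h.sta ω h1 h2).mono (Real.rpow_le_rpow_of_exponent_le (by norm_num)
    (mul_le_mul_of_nonneg_right hη F.pos.le))

theorem Cor.sub {F : FSp} {Q : F.Ω → Fin M → ℝ} {t : TwF F M} (h : Cor Q w sg m J η t) {f : ℕ → ℕ} (hf : Monotone f)
    (hm : f m' ≤ m) (hf0 : f 0 = 0) (hs : ∀ i, sg' i = sg (f i)) : Cor Q w sg' m' J η (t.sub f) where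
  anti := fun i => V_anti h.anti (hf (Nat.le_succ i))
  fr := fun i ω => h.fr (f i) ω
  zero := by
    intro ω l
    show t.P (f 0) ω l = 0
    rw [hf0]
    exact h.zero ω l
  meas := fun i hi => h.meas (f i) ((hf hi).trans hm)
  typ := h.typ
  sta := fun ω h1 h2 => (h.sta ω h1 h2).sub hf hm hs

theorem OkG.mono {t : TwF (S.F k) M} (h : OkG D w sg m J η k t) (hη : η ≤ η') : OkG D w sg m J η' k t where
  leak := fun i h1 h2 a => (h.leak i h1 h2 a).trans (mul_le_mul_of_nonneg_right hη (S.F k).pos.le)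
  ex := h.ex
  qq := fun i h1 h2 => D.qm _ _ _ _ _ hη (h.qq i h1 h2)
  cor := h.cor.mono hη

theorem OkG.sub {t : TwF (S.F k) M} (h : OkG D w sg m J η k t) {f : ℕ → ℕ} (hf : Monotone f) (hm : f m' ≤ m)
    (hf0 : f 0 = 0) (hf1 : ∀ i, 1 ≤ i → 1 ≤ f i) (hs : ∀ i, sg' i = sg (f i)) : OkG D w sg' m' J η k (t.sub f) where
  leak := by
    intro i h1 h2 a
    rw [hs]
    exact h.leak (f i) (hf1 i h1) ((hf h2).trans hm) a
  ex := fun i h1 h2 => h.ex (f i) (hf1 i h1) ((hf h2).trans hm)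
  qq := by
    intro i h1 h2
    rw [hs]
    exact h.qq (f i) (hf1 i h1) ((hf h2).trans hm)
  cor := h.cor.sub hf hm hf0 hs

/-! ### exact towers -/

theorem OkT.sub {t : ∀ k, TwF (S.F k) M} (h : OkT D w sg m J t) {f : ℕ → ℕ} (hf : Monotone f) (hm : f m' ≤ m)
    (hf0 : f 0 = 0) (hf1 : ∀ i, 1 ≤ i → 1 ≤ f i) (hs : ∀ i, sg' i = sg (f i)) :
    OkT D w sg' m' J (fun k => (t k).sub f) := by
  intro η hη
  filter_upwards [h η hη] with k hk using hk.sub hf hm hf0 hf1 hs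

/-- the structural conditions may be assumed at all indices -/
theorem OkT.clean {t : ∀ k, TwF (S.F k) M} (h : OkT D w sg m J t) :
    ∃ t' : ∀ k, TwF (S.F k) M, OkT D w sg m J t' ∧ ∀ k, (t' k).Str w m J := by
  classical
  refine ⟨fun k => if (t k).Str w m J then t k else TwF.triv (S.F k) M, fun η hη => ?_, fun k => ?_⟩
  · filter_upwards [h η hη] with k hk
    rw [if_pos hk.cor.str]
    exact hk
  · show TwF.Str w m J (if (t k).Str w m J then t k else TwF.triv (S.F k) M)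
    by_cases h1 : (t k).Str w m J
    · rw [if_pos h1]
      exact h1
    · rw [if_neg h1]
      exact TwF.triv_str _ _ _ _

theorem OkT.tame {t : ∀ k, TwF (S.F k) M} (h : OkT D w sg m J t) : ∃ K : ℕ → ℝ, S.Sub K ∧ (∀ k, 1 ≤ K k) ∧
    ∀ᶠ k in UF, ∀ ω, (t k).T.μ ω ≠ 0 → (t k).A ω → Sta (2 ^ (S.F k).n) w sg m J (K k) (fun i => (t k).P i ω)
      (s.Q.v k ((t k).p.π ω)) := by
  apply tame_of_eta fun k B => ∀ ω, (t k).T.μ ω ≠ 0 → (t k).A ω → Sta (2 ^ (S.F k).n) w sg m J B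
    (fun i => (t k).P i ω) (s.Q.v k ((t k).p.π ω))
  intro η hη
  filter_upwards [h η hη] with k hk using hk.cor.sta

/-- DIAGONAL -/
theorem OkT.diag (h : ∀ u : ℕ, ∃ t : ∀ k, TwF (S.F k) M, ∀ᶠ k in UF, OkG D w sg m J (1 / ((u : ℝ) + 1)) k (t k)) :
    ∃ t : ∀ k, TwF (S.F k) M, OkT D w sg m J t := by
  choose t ht using h
  obtain ⟨y, j, hj, hy, hG⟩ := dia' (X := fun k => TwF (S.F k) M) t
    (fun i k x => OkG D w sg m J (1 / ((i : ℝ) + 1)) k x) ht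
  have h0 : Tendsto (fun k => 1 / ((j k : ℝ) + 1)) UF (𝓝 0) := tendsto_one_div_add_atTop_nhds_zero_nat.comp hj
  refine ⟨y, fun η hη => ?_⟩
  filter_upwards [hG, h0.eventually (gt_mem_nhds hη)] with k h1 h2 using h1.mono h2.le

theorem OkT.typA {t : ∀ k, TwF (S.F k) M} (h : OkT D w sg m J t) :
    Tendsto (fun k => (t k).T.pb (fun ω => ¬ (t k).A ω)) UF (𝓝 0) := by
  rw [Metric.tendsto_nhds]
  intro ε hε
  filter_upwards [h (ε / 2) (by linarith)] with k hk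
  rw [Real.dist_eq, sub_zero, abs_of_nonneg (FSp.pb_nonneg _ _)]
  linarith [hk.cor.typ]

end

end

end Pool.Agent.Helper85.FRG
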