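import Pool.Agent.Helper48.ROK.Fin
import Pool.Agent.Helper84.KR.Prt
import Pool.Agent.Helper85.FRG.Lit

/-! VISIBLE BOXES: the mixed class of labels (no leak at `R`, null leak at `B` and at the windows) has the same optimal
scores as the K-labels of `R` if one optimal form of every degree is visible from `B`; rows and frames in the mixed class. -/

set_option autoImplicit false

namespace Pool.Agent.Helper85.FRG

open Finset Filter Topology Matrix Pool.Agent.Helper69.RK Pool.Agent.Helper31.EC Pool.Agent.Helper31.EC.Sp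
open Pool.Agent.Helper40.EL Pool.Agent.Helper89.LX Pool.Agent.Helper3.LF Pool.Agent.Helper84.MT Pool.Agent.Helper36.AM
open Pool.Agent.Helper33.LIT Pool.Agent.Helper49.KL Pool.Agent.Helper85.FRM
open Pool.Agent.Helper52.GF (scw scw_cnd)
open Pool.Agent.Helper89.RAK (KC Lit addW_kz)
open Pool.Agent.Helper89.RAT
open Pool.Agent.Helper87.NSL (KnS)
open Pool.Agent.Helper48.ROW
open Pool.Agent.Helper48.ROK (rows_exK LowK NumC VolC pvv pre_eq H_low low_num typ_low scw_im sum_le_split low_of_num)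
open Pool.Agent.Helper84.KR (prt optK_prt prt_lb)
open Pool.Agent.Helper3.KL (vol_optK_le)
open Pool.Agent.Helper14.MC (cnt_vol)

noncomputable section

variable {S T : Sp} {M N D : ℕ} {E : ℕ → ℕ} {ι κ : Type} {s : MSys S M E ι} {B R : ∀ k, Setoid (S.F k).Ω}

/-! ### the mixed class -/

/-- labels of the mixed class are K-labels -/
theorem mix_dm {c : ℝ} {l : Lab S} (hl : l.DMf (scw s (fun k => fc (B k)) c)) (hC : (KC R).ev l) :
    l.DMf (scw s (fun k => fc (R k)) c) := by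
  intro i
  rcases i with _ | i
  · refine Tendsto.congr' ?_ tendsto_const_nhds
    filter_upwards [hC] with k hk
    have h1 : (l k).leak (scw s (fun k => fc (R k)) c none k) = 0 := hk
    rw [h1, zero_div]
  · exact hl (some i)

/-- admissible forms of the mixed class are admissible for the K-labels -/
theorem mix_adf {Q : S.VV N} {c : ℝ} {x : ∀ k, FD (S.F k) (Mon N D)}
    (hx : (gaq Q D).AdfK (KC R) (scw s (fun k => fc (B k)) c) x) :
    (gaq Q D).AdfK (KC R) (scw s (fun k => fc (R k)) c) x := by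
  refine ⟨fun η hη => ?_, hx.2⟩
  filter_upwards [hx.1 η hη, hx.2] with k hk h0
  refine ⟨fun i => ?_, hk.2⟩
  rcases i with _ | i
  · have h1 : (x k).l.leak (scw s (fun k => fc (R k)) c none k) = 0 := h0
    rw [h1]
    exact mul_nonneg hη.le (S.F k).pos.le
  · exact hk.1 (some i)

/-- visible forms of the K-labels are admissible for the mixed class -/
theorem vis_adf {Q : S.VV N} {c : ℝ} {x : ∀ k, FD (S.F k) (Mon N D)}
    (hx : (gaq Q D).AdfK (KC R) (scw s (fun k => fc (R k)) c) x) (hv : Nul S fun k => (x k).l.leak (fc (B k))) :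
    (gaq Q D).AdfK (KC R) (scw s (fun k => fc (B k)) c) x := by
  refine ⟨fun η hη => ?_, hx.2⟩
  filter_upwards [hx.1 η hη, nul_ev hv hη] with k hk h0
  refine ⟨fun i => ?_, hk.2⟩
  rcases i with _ | i
  · exact h0
  · exact hk.1 (some i)

/-- visible optimal forms are optimal for the mixed class -/
theorem vis_opt {Q : S.VV N} {c : ℝ} {x : ∀ k, FD (S.F k) (Mon N D)}
    (hx : (gaq Q D).OptfK (KC R) (scw s (fun k => fc (R k)) c) x) (hv : Nul S fun k => (x k).l.leak (fc (B k))) :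
    (gaq Q D).OptfK (KC R) (scw s (fun k => fc (B k)) c) x :=
  ⟨vis_adf hx.1 hv, fun y hy => hx.2 y (mix_adf hy)⟩

/-- if one optimal form is visible, optimal forms of the mixed class are optimal -/
theorem opt_mix {Q : S.VV N} {c : ℝ} {x y : ∀ k, FD (S.F k) (Mon N D)}
    (hx : (gaq Q D).OptfK (KC R) (scw s (fun k => fc (R k)) c) x) (hv : Nul S fun k => (x k).l.leak (fc (B k)))
    (hy : (gaq Q D).OptfK (KC R) (scw s (fun k => fc (B k)) c) y) :
    (gaq Q D).OptfK (KC R) (scw s (fun k => fc (R k)) c) y :=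
  ⟨mix_adf hy.1, fun z hz => (hx.2 z hz).trans (hy.2 x (vis_adf hx.1 hv))⟩

/-! ### rows -/

/-- ROW_j of the mixed class -/
def RowB (s : MSys S M E ι) (B R : ∀ k, Setoid (S.F k).Ω) (c : ℝ) (j : Fin M) (θ : ℝ) : Prop :=
  ∃ (Dg : ℕ) (l : Lab S) (p : ∀ k, (l.sp.F k).Ω → MvPolynomial (Fin M) ℝ),
    l.DMf (scw s (fun k => fc (B k)) c) ∧ (KC R).ev l ∧
    (∀ k ω, (p k ω).totalDegree ≤ Dg) ∧ (∀ k ω, ∀ a ∈ (p k ω).vars, a ≤ j) ∧ Knw l.sp l.V p ∧
    ∃ K : ℕ → ℝ, S.Sub K ∧ Sp.Typ (S := l.sp) fun k ω =>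
      |MvPolynomial.eval ((l.pj.vv s.Q).v k ω) (p k ω)| ≤ K k ∧
      2 ^ (θ * (S.F k).n) ≤ K k * |MvPolynomial.eval ((l.pj.vv s.Q).v k ω) (MvPolynomial.pderiv j (p k ω))|

/-- THE ROW of the coordinates `σ` from typical exponents -/
theorem row_ofB (hR : Lit R s.Q) (hD : 1 ≤ D) {c θ : ℝ} (σ : Fin N → Fin M) (hσ : Function.Injective σ)
    (z : Fin N) (hz : ∀ a, σ a ≤ σ z) {Q' : S.VV N} (hQ' : ∀ k ω a, Q'.v k ω a = s.Q.v k ω (σ a))
    {x : ∀ k, FD (S.F k) (Mon N D)} (hx : (gaq Q' D).AdfK (KC R) (scw s (fun k => fc (B k)) c) x)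
    (hθ : ∀ e : ℝ, 0 < e → Sp.Typ (S := (lb x).sp) fun k (ω : (x k).l.T.Ω) =>
      θ - e ≤ xz Q' z k ((x k).l.p.π ω) ((x k).g ω)) : RowB s B R c (σ z) θ := by
  obtain ⟨f, p, K, hdeg, hmeas, hix, hK, hT⟩ := rows_exK hD hx.1 hθ
  have hQR : ∀ k (ω ω' : (S.F k).Ω), R k ω ω' → Q'.v k ω = Q'.v k ω' := by
    intro k ω ω' r
    have h1 : s.Q.v k ω = s.Q.v k ω' := hR k r
    funext a
    rw [hQ', hQ', h1]
  have hev : ∀ k (ω : (x k).l.T.Ω) (q : MvPolynomial (Fin N) ℝ),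
      MvPolynomial.eval (s.Q.v k ((x k).l.p.π ω)) (sb σ 1 (fun _ => 0) q) =
      MvPolynomial.eval (Q'.v k ((x k).l.p.π ω)) q := by
    intro k ω q
    rw [eval_sb]
    congr 1
    have e1 : (fun a => (1 : ℝ) * s.Q.v k ((x k).l.p.π ω) (σ a) + (fun _ => 0 : Fin N → ℝ) a) =
        Q'.v k ((x k).l.p.π ω) := by
      funext a
      rw [hQ', one_mul, add_zero]
    rw [e1]
  have hev2 : ∀ k (ω : (x k).l.T.Ω) (q : MvPolynomial (Fin N) ℝ),
      MvPolynomial.eval (s.Q.v k ((x k).l.p.π ω)) (MvPolynomial.pderiv (σ z) (sb σ 1 (fun _ => 0) q)) =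
      MvPolynomial.eval (Q'.v k ((x k).l.p.π ω)) (MvPolynomial.pderiv z q) := by
    intro k ω q
    rw [pderiv_sb 1 (fun _ => 0) hσ z, map_mul, MvPolynomial.eval_C, one_mul, hev]
  refine ⟨D, (lb x).addW fun k => pIx (f k), fun k (ω : (x k).l.T.Ω) => sb σ 1 (fun _ => 0) (p k ω),
    DMf_pIx (Gau.Adf.dm _ hx.1) f, ?_, fun k ω => sb_deg _ _ _ _ _ (hdeg k ω), ?_, ?_, K, hK, ?_⟩
  · filter_upwards [hx.2] with k hk
    refine addW_kz (x k).l (pIx (f k)) (R k) hk fun ω ω' a b c d r => ?_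
    have h1 := hix k ω ω' a b c d (hQR k _ _ r)
    show (fun _ : Fin 1 => (cIx (f k ω) : ℤ)) = fun _ : Fin 1 => (cIx (f k ω') : ℤ)
    rw [h1]
  · intro k ω a ha
    obtain ⟨b, rfl⟩ := sb_vars _ _ _ _ _ ha
    exact hz b
  · refine Eventually.of_forall fun k ω ω' a b c d => ?_
    have h1 := hmeas k ω ω' a b d.1 c (pIx_eq d.2)
    beta_reduce
    rw [h1]
  · refine typ_mono (S := (lb x).sp) (E := fun k (ω : (x k).l.T.Ω) =>
      |MvPolynomial.eval (Q'.v k ((x k).l.p.π ω)) (p k ω)| ≤ K k ∧ 2 ^ (θ * (S.F k).n) ≤ K k *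
        |MvPolynomial.eval (Q'.v k ((x k).l.p.π ω)) (MvPolynomial.pderiv z (p k ω))|) hT ?_
    refine Eventually.of_forall fun k ω _ hh => ?_
    obtain ⟨h1, h2⟩ := hh
    constructor
    · exact (congrArg (fun t : ℝ => |t| ≤ K k) (hev k ω (p k ω))).mpr h1
    · exact (congrArg (fun t : ℝ => (2 : ℝ) ^ (θ * (S.F k).n) ≤ K k * |t|) (hev2 k ω (p k ω))).mpr h2

/-- lower numbers over the mixed labels on events -/
theorem low_numB {c : ℝ} {w : Fin M → ℝ} (hL : LowK s R c w) (j : Fin M) {P : S.VV j.val}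
    (hP : ∀ k ω a, P.v k ω a = s.Q.v k ω (Fin.castLE j.isLt.le a)) (T : Sp) (p : Pj T S) (A : ∀ k, (T.F k).Ω → Prop)
    (hA : 0 < ul (T.pr A)) (l : Lab (Sp.im p A)) (hl : l.DMf (fun i => (scw s (fun k => fc (B k)) c i).im p A))
    (hC : (LC.kz (S := Sp.im p A) fun k => fc (R k)).ev l) :
    (∑ i : Fin M, if i < j then 1 - w i * c else 0) ≤ H (up1 l ((P.im p A).dg 1)) := by
  refine low_num hL j hP T p A hA l ?_ hC
  rw [← scw_im s R c p A hA]
  refine mix_dm (s := s.im p A hA) (B := B) ?_ hC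
  rw [scw_im s B c p A hA]
  exact hl

/-- THE ROWS of the inner coordinates -/
theorem rowB_int [Finite ι] (hR : Lit R s.Q) (hD : 1 ≤ D) {c : ℝ} {w : Fin M → ℝ} (hL : LowK s R c w)
    (hV : VolC s R D c w) {X : ∀ k, FD (S.F k) (Mon M D)}
    (hX : (gaq s.Q D).OptfK (KC R) (scw s (fun k => fc (R k)) c) X) (hvX : Nul S fun k => (X k).l.leak (fc (B k)))
    (j : Fin M) (hj : j.val + 1 < M) : RowB s B R c j (w j * c) := by
  obtain ⟨Q', y, hQ', hy, hv⟩ := hV.pre j hj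
  have hx0 := optK_prt (P := Q') (σ := Fin.castLE j.isLt) (hσ := Fin.castLE_injective j.isLt) hQ' hX
  set x := prt (Fin.castLE j.isLt) (Fin.castLE_injective j.isLt) X with hxdef
  have hxv : Nul S fun k => (x k).l.leak (fc (B k)) := hvX
  have hx := vis_opt hx0 hxv
  have hR' : Lit R Q' := by
    intro k ω ω' r
    have h1 : s.Q.v k ω = s.Q.v k ω' := hR k r
    show Q'.v k ω = Q'.v k ω'
    funext a
    rw [hQ', hQ', h1]
  have hv' : vol Q' D x ≤ (∑ i : Fin M, if i < j then 1 - w i * c else 0) + 1 - w j * c := by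
    have h1 := vol_optK_le hx0 hy
    rw [sum_le_split] at hv
    linarith
  have hlow : ∀ (T : Sp) (p : Pj T S) (A : ∀ k, (T.F k).Ω → Prop) (_ : 0 < ul (T.pr A))
      (y : ∀ k, FD ((Sp.im p A).F k) (Mon (j.val + 1) D)),
      (gaq (Q'.im p A) D).AdfK (LC.kz (S := Sp.im p A) fun k => fc (R k))
        (fun i => (scw s (fun k => fc (B k)) c i).im p A) y →
          (∑ i : Fin M, if i < j then 1 - w i * c else 0) + 1 - w j * c ≤ vol (Q'.im p A) D y := by
    intro T p A hA y hy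
    have h1 := cnt_vol (Q'.im p A) hD y hy.1
    have h2 := low_numB (B := B) hL ⟨j.val + 1, hj⟩ (P := Q') hQ' T p A hA (lb y) (Gau.Adf.dm _ hy.1) hy.2
    rw [sum_succ] at h2
    linarith
  have hrow := row_ofB (s := s) (B := B) hR hD (Fin.castLE j.isLt) (Fin.castLE_injective j.isLt) (Fin.last j.val)
    (fun a => by
      rw [Fin.le_def]
      exact Nat.le_of_lt_succ a.2) (Q' := Q') hQ' hx.1
    (typ_low hR' hD hx (Fin.last j.val) (pvv Q' (Nat.le_succ j.val)) (Fin.castLE (Nat.le_succ j.val))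
      (fun a h => by
        have h1 := congrArg Fin.val h
        rw [Fin.val_last, Fin.val_castLE] at h1
        exact absurd h1 a.isLt.ne)
      (fun k ω a => rfl) (a := ∑ i : Fin M, if i < j then 1 - w i * c else 0) (θ := w j * c)
      (fun T p A hA l hl hC => low_numB (B := B) hL j (P := pvv Q' (Nat.le_succ j.val)) (fun k ω a => hQ' k ω _)
        T p A hA l hl hC)
      hv' hlow)
  have e2 : (Fin.castLE j.isLt (Fin.last j.val) : Fin M) = j := Fin.ext rfl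
  rw [e2] at hrow
  exact hrow

/-- THE ROW of the last coordinate -/
theorem rowB_last [Finite ι] {d : ℕ} {s : MSys S (d + 1) E ι} (hR : Lit R s.Q) (hD : 1 ≤ D) {c : ℝ}
    {w : Fin (d + 1) → ℝ} (hL : LowK s R c w) (hV : VolC s R D c w) {X : ∀ k, FD (S.F k) (Mon (d + 1) D)}
    (hX : (gaq s.Q D).OptfK (KC R) (scw s (fun k => fc (R k)) c) X) (hvX : Nul S fun k => (X k).l.leak (fc (B k))) :
    RowB s B R c (Fin.last d) (w (Fin.last d) * c) := by
  obtain ⟨y, hy, hv⟩ := hV.all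
  have hx := vis_opt hX hvX
  have hv' : vol s.Q D X ≤ (∑ i : Fin (d + 1), if i < Fin.last d then 1 - w i * c else 0) + 1 -
      w (Fin.last d) * c := by
    have h1 := vol_optK_le hX hy
    rw [sum_last] at hv
    linarith
  have hlow : ∀ (T : Sp) (p : Pj T S) (A : ∀ k, (T.F k).Ω → Prop) (_ : 0 < ul (T.pr A))
      (y : ∀ k, FD ((Sp.im p A).F k) (Mon (d + 1) D)),
      (gaq (s.Q.im p A) D).AdfK (LC.kz (S := Sp.im p A) fun k => fc (R k))
        (fun i => (scw s (fun k => fc (B k)) c i).im p A) y →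
          (∑ i : Fin (d + 1), if i < Fin.last d then 1 - w i * c else 0) + 1 - w (Fin.last d) * c ≤
            vol (s.Q.im p A) D y := by
    intro T p A hA y hy
    have h0 : (gaq (s.im p A hA).Q D).AdfK (KC (S := Sp.im p A) R) (scw (s.im p A hA) (fun k => fc (B k)) c) y := by
      rw [scw_im]
      exact hy
    have h2 := hV.low T p A hA y (mix_adf h0)
    rw [sum_last] at h2
    have e1 : vol (s.im p A hA).Q D y = vol (s.Q.im p A) D y := rfl
    linarith
  exact row_ofB (s := s) (B := B) hR hD (fun a : Fin (d + 1) => a) (fun a b h => h) (Fin.last d)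
    (fun a => Fin.le_last a) (Q' := s.Q) (fun k ω a => rfl) hx.1
    (typ_low hR hD hx (Fin.last d) (pvv s.Q (Nat.le_succ d)) (Fin.castLE (Nat.le_succ d))
      (fun a h => by
        have h1 := congrArg Fin.val h
        rw [Fin.val_last, Fin.val_castLE] at h1
        exact absurd h1 a.isLt.ne)
      (fun k ω a => rfl) (a := ∑ i : Fin (d + 1), if i < Fin.last d then 1 - w i * c else 0)
      (θ := w (Fin.last d) * c)
      (fun T p A hA l hl hC => low_numB (B := B) hL (Fin.last d) (P := pvv s.Q (Nat.le_succ d)) (fun k ω a => rfl)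
        T p A hA l hl hC)
      hv' hlow)

/-- **THE ROWS OF THE MIXED CLASS** -/
theorem rowB [Finite ι] (hR : Lit R s.Q) (hD : 1 ≤ D) {c : ℝ} {w : Fin M → ℝ} (hL : LowK s R c w)
    (hV : VolC s R D c w) {X : ∀ k, FD (S.F k) (Mon M D)}
    (hX : (gaq s.Q D).OptfK (KC R) (scw s (fun k => fc (R k)) c) X) (hvX : Nul S fun k => (X k).l.leak (fc (B k)))
    (j : Fin M) : RowB s B R c j (w j * c) := by
  rcases Nat.lt_or_ge (j.val + 1) M with h2 | h2
  · exact rowB_int hR hD hL hV hX hvX j h2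
  · obtain ⟨d, rfl⟩ : ∃ d, M = d + 1 := ⟨M - 1, by have := j.isLt; omega⟩
    have h3 : j = Fin.last d := Fin.ext (by
      rw [Fin.val_last]
      have := j.isLt
      omega)
    rw [h3]
    exact rowB_last hR hD hL hV hX hvX

/-! ### carriers -/

/-- VISIBLE from `B` at the window `c`: every degree has an optimal form whose label has null leak at `B` -/
def VisB (s : MSys S M E ι) (B R : ∀ k, Setoid (S.F k).Ω) (c : ℝ) : Prop :=
  ∀ D : ℕ, ∃ x : ∀ k, FD (S.F k) (Mon M D), (gaq s.Q D).OptfK (KC R) (scw s (fun k => fc (R k)) c) x ∧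
    Nul S fun k => (x k).l.leak (fc (B k))

/-- carriers of the mixed class are carriers -/
theorem car_mix {c : ℝ} (hv : VisB s B R c) {l : Lab S} (h : Car s R (fun k => fc (B k)) c l) :
    Car s R (fun k => fc (R k)) c l := by
  intro D
  obtain ⟨x, hx, ho⟩ := h D
  obtain ⟨y, hy, hy2⟩ := hv D
  exact ⟨x, hx, opt_mix hy hy2 ho⟩

/-- a carrier with null leak at `B` is a carrier of the mixed class -/
theorem mix_car {c : ℝ} {l : Lab S} (h : Car s R (fun k => fc (R k)) c l)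
    (hv : Nul S fun k => (l k).leak (fc (B k))) : Car s R (fun k => fc (B k)) c l := by
  intro D
  obtain ⟨x, hx, ho⟩ := h D
  refine ⟨x, hx, vis_opt ho ?_⟩
  have e1 : (fun k => (x k).l.leak (fc (B k))) = fun k => (l k).leak (fc (B k)) := funext fun k => by rw [hx k]
  rw [e1]
  exact hv

/-- **VISIBLE LITERAL BOXES WITH FRAMES**: `R` any resolution which knows the point literally (`R = ⊥` allowed), `B` any
partition which knows the point up to `2^(-n)`; numbers and volumes over the K-labels of `R`; optimal forms visible from `B` -/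
theorem vis_frames [Finite ι] (s : MSys S M E ι) {B R : ∀ k, Setoid (S.F k).Ω}
    (hB : ∃ K : ℕ → ℝ, S.Sub K ∧ ∀ᶠ k in UF, ∀ ω ω', (S.F k).μ ω ≠ 0 → (S.F k).μ ω' ≠ 0 → (S.F k).Z ω ω' → B k ω ω' →
      ∀ i, |s.Q.v k ω i - s.Q.v k ω' i| ≤ K k * S.dl 1 k) (hR : Lit R s.Q) (hD : 1 ≤ D) {w : Fin M → ℝ}
    (hw : ∀ i, 1 ≤ w i) {c : ℝ} (hc : 0 < c) (hwc : ∀ i, w i * c < 1)
    (hnum : ∀ c' : ℝ, 0 < c' → c' ≤ c → ∀ j : Fin M, ∀ l : Lab S, Car s R (fun k => fc (R k)) c' l →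
      Tendsto (fun k => h ((l k).p.map (pre s.Q j.val k)) (l k).v / (S.F k).n) UF
        (𝓝 (∑ i : Fin M, if i < j then 1 - w i * c' else 0)))
    (hL : ∀ c' : ℝ, 0 < c' → c' ≤ c → LowK s R c' w) (hV : ∀ c' : ℝ, 0 < c' → c' ≤ c → VolC s R D c' w)
    (hvis : ∀ c' : ℝ, 0 < c' → c' ≤ c → VisB s B R c') :
    ∃ (Z : ∀ k, Setoid (S.F k).Ω) (_ : Frm s.Q (Lab.ofZ Z) fun j => w j * c), (∀ᶠ k in UF, R k ⊓ (S.F k).Z ≤ Z k) ∧
      (Lab.ofZ Z).DMf (scw s (fun k => fc (B k)) c) ∧ Car s R (fun k => fc (R k)) c (Lab.ofZ Z) := by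
  obtain ⟨Z, f, h1, h2⟩ := frtc_lit s hB (lit_kns hR) hw hc hwc
    (fun c' h0 h1 j l hl => hnum c' h0 h1 j l (car_mix (hvis c' h0 h1) hl)) (fun c' h0 h1 j => by
      obtain ⟨X, hX, hX2⟩ := hvis c' h0 h1 D
      obtain ⟨Dg, l, p, a, b, e⟩ := rowB hR hD (hL c' h0 h1) (hV c' h0 h1) hX hX2 j
      exact ⟨Dg, l, p, ⟨a, b⟩, e⟩)
  exact ⟨Z, f, h1, h2.dm.1, car_mix (hvis c hc le_rfl) h2⟩

/-- **THE BOX OF KHT**: `R = ⊥` (type-labels), visible from the cells of the present point -/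
theorem vis_box [Finite ι] (s : MSys S M E ι) (hD : 1 ≤ D) {w : Fin M → ℝ}
    (hw : ∀ i, 1 ≤ w i) {c : ℝ} (hc : 0 < c) (hwc : ∀ i, w i * c < 1)
    (hnum : ∀ c' : ℝ, 0 < c' → c' ≤ c → ∀ j : Fin M, ∀ l : Lab S, Car s (fun _ => ⊥) (fun _ => fc ⊥) c' l →
      Tendsto (fun k => h ((l k).p.map (pre s.Q j.val k)) (l k).v / (S.F k).n) UF
        (𝓝 (∑ i : Fin M, if i < j then 1 - w i * c' else 0)))
    (hL : ∀ c' : ℝ, 0 < c' → c' ≤ c → LowK s (fun _ => ⊥) c' w)
    (hV : ∀ c' : ℝ, 0 < c' → c' ≤ c → VolC s (fun _ => ⊥) D c' w)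
    (hvis : ∀ c' : ℝ, 0 < c' → c' ≤ c → VisB s (fun k => Setoid.ker (s.Q.cellv 1 k)) (fun _ => ⊥) c') :
    ∃ (Z : ∀ k, Setoid (S.F k).Ω) (_ : Frm s.Q (Lab.ofZ Z) fun j => w j * c),
      s.DMc c (Lab.ofZ Z) ∧ Car s (fun _ => ⊥) (fun _ => fc ⊥) c (Lab.ofZ Z) := by
  obtain ⟨Z, f, -, h2, h3⟩ := vis_frames s (B := fun k => Setoid.ker (s.Q.cellv 1 k)) (R := fun _ => ⊥) (cell_bd s.Q)
    (fun k => bot_le) hD hw hc hwc hnum hL hV hvis
  refine ⟨Z, f, ?_, h3⟩
  have e1 : (scw s (fun k => fc (Setoid.ker (s.Q.cellv 1 k))) c) = s.cnd c := scw_cnd s c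
  rw [e1] at h2
  exact h2

end

end Pool.Agent.Helper85.FRG
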